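import Pool.Agent.H639.Jen3
import Pool.Agent.H639.Hp1

/-!
The approximation property of `HOD`, part 1: sets of ordinals.
-/

set_option autoImplicit false
set_option linter.unusedVariables false

namespace Pool.Agent.H644

open Pool.Agent.H310.HD Pool.Agent.H639 Gss969 ZFSet Pool.Agent.Results.MP_e37c09_lc.AlternativeA

universe u

/-- The image `j[α]` is ordinal definable over a level below `ζ'`. -/
theorem setup_img {δ ζ ζ' η θ τ α : Ordinal.{u}} {j : ZFSet.{u} → ZFSet.{u}}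
    (G : Setup δ ζ ζ' η θ τ j α) :
    ∃ T, (∀ ξ, ξ ∈ T ↔ ∃ i ∈ α.toZFSet, j i = ξ) ∧ T ⊆ j α.toZFSet ∧
      ∃ β < ζ', ODat (V_ β) T := by
  have D := G.D
  have hγη := G.hαζ.trans G.hζη
  have hγV : α.toZFSet ∈ V_ η := ExtData.ordB hγη
  have hW : V_ ζ ∈ V_ η := vonNeumann_mem_vonNeumann_iff.2 G.hζη
  obtain ⟨g, hg⟩ : ∃ g : ZFSet.{u}, g = gr α.toZFSet (fun x => j x) := ⟨_, rfl⟩
  have hjγe : j α.toZFSet = (rank (j α.toZFSet)).toZFSet := D.jJ hγη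
  have hgf : IsFunc α.toZFSet (j α.toZFSet) g := by
    rw [hg]
    exact isFunc_gr fun x hx => (D.E.mem_iff (D.E.bt.mem_trans hx hγV) hγV).1 hx
  have hgOD : ∃ β < ζ', ODat (V_ β) g := by rw [hg]; exact G.g
  have hmemJ : ∀ {x : ZFSet.{u}}, x ∈ V_ ζ → j x ∈ V_ ζ' := by
    intro x hx
    rw [← G.jW]
    exact (D.E.mem_iff (D.E.bt.mem_trans hx hW) hW).1 hx
  have hjγ : rank (j α.toZFSet) < ζ' := mem_vonNeumann.1 (hmemJ (ExtData.ordB G.hαζ))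
  have hγζ' : α < ζ' := (D.le_J hγη).trans_lt hjγ
  obtain ⟨T, hT⟩ : ∃ T : ZFSet.{u}, T = ZFSet.sep (fun ξ => ∃ i ∈ α.toZFSet, pair i ξ ∈ g)
    (j α.toZFSet) := ⟨_, rfl⟩
  have hT' : ∀ ξ, ξ ∈ T ↔ ∃ i ∈ α.toZFSet, j i = ξ := by
    intro ξ
    rw [hT, mem_sep]
    constructor
    · rintro ⟨_, i, hi, h⟩
      rw [hg, pair_mem_gr] at h
      exact ⟨i, hi, h.2⟩
    · rintro ⟨i, hi, rfl⟩
      refine ⟨(D.E.mem_iff (D.E.bt.mem_trans hi hγV) hγV).1 hi, i, hi, ?_⟩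
      rw [hg, pair_mem_gr]
      exact ⟨hi, rfl⟩
  have hTs : T ⊆ j α.toZFSet := by rw [hT]; exact sep_subset
  refine ⟨T, hT', hTs, ?_⟩
  refine OD_of' (R := fun y x => (∀ ξ ∈ y, ξ ∈ x 2 ∧ ∃ i ∈ x 3, pair i ξ ∈ x 0) ∧
        ∀ ξ ∈ x 2, (∃ i ∈ x 3, pair i ξ ∈ x 0) → ξ ∈ y)
      (x := asg g g (rank (j α.toZFSet)).toZFSet α.toZFSet α.toZFSet α.toZFSet) ?_ G.ll' hgOD hgOD
      (asg_ord (isOrdinal_toZFSet _) (isOrdinal_toZFSet _) (isOrdinal_toZFSet _)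
        (isOrdinal_toZFSet _))
      (ρ := max (rank (j α.toZFSet)) α) (max_lt hjγ hγζ') ?_ ?_ fun y => ?_
  · refine Dfn.and ?_ ?_
    · exact Dfn.ball Lvl_sub_Trs _ ((Dfn.mem _ _).and (Dfn.bex Lvl_sub_Trs _
        (dfn_pm Lvl_sub_Trs _ _ _)))
    · exact Dfn.ball Lvl_sub_Trs _ ((Dfn.bex Lvl_sub_Trs _
        (dfn_pm Lvl_sub_Trs _ _ _)).imp (Dfn.mem _ _))
  · intro i
    rcases i with _ | i
    · show rank (rank (j α.toZFSet)).toZFSet ≤ _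
      rw [Ordinal.rank_toZFSet]
      exact le_max_left _ _
    rcases i with _ | i
    · show rank α.toZFSet ≤ _
      rw [Ordinal.rank_toZFSet]
      exact le_max_right _ _
    rcases i with _ | i
    · show rank α.toZFSet ≤ _
      rw [Ordinal.rank_toZFSet]
      exact le_max_right _ _
    · show rank α.toZFSet ≤ _
      rw [Ordinal.rank_toZFSet]
      exact le_max_right _ _
  · refine lt_of_le_of_lt (rank_mono hTs) hjγ
  · rw [← hjγe]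
    show ((∀ ξ ∈ y, ξ ∈ j α.toZFSet ∧ ∃ i ∈ α.toZFSet, pair i ξ ∈ g) ∧
      ∀ ξ ∈ j α.toZFSet, (∃ i ∈ α.toZFSet, pair i ξ ∈ g) → ξ ∈ y) ↔ _
    constructor
    · rintro ⟨h1, h2⟩
      ext ξ
      rw [hT, mem_sep]
      exact ⟨h1 ξ, fun h => h2 ξ h.1 h.2⟩
    · rintro rfl
      exact ⟨fun ξ hξ => by rw [hT, mem_sep] at hξ; exact hξ, fun ξ h1 h2 => by
        rw [hT, mem_sep]; exact ⟨h1, h2⟩⟩

/-- `x` is the value at `p` of a function which is ordinal definable over a level in `W`. -/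
def DefP (W p x : ZFSet.{u}) : Prop :=
  ∃ U ∈ W, Lev U ∧ ∃ G ∈ W, ODat U G ∧ (pair p x ∈ G ∧ ∀ y ∈ W, pair p y ∈ G → y = x)

theorem dfn_DefP (a b c : ℕ) : Dfn Lvl.{u} (fun v => DefP (v a) (v b) (v c)) := by
  unfold DefP
  repeat' first
    | exact Dfn.mem _ _ | exact Dfn.eq _ _ | exact dfn_lev _ | exact dfn_ODat _ _
    | exact dfn_pm Lvl_sub_Trs _ _ _
    | refine Dfn.and ?_ ?_ | refine Dfn.imp ?_ ?_
    | refine Dfn.ball Lvl_sub_Trs _ ?_ | refine Dfn.bex Lvl_sub_Trs _ ?_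

theorem DefP.odp {ζ : Ordinal.{u}} {p x : ZFSet.{u}} (h : DefP (V_ ζ) p x) : ODp p x := by
  obtain ⟨U, _, ⟨γ, rfl⟩, G, hG, hGo, h1, h2⟩ := h
  refine odp_of_od ⟨γ, hGo⟩ fun y => ⟨fun hy => h2 y ?_ hy, fun hy => by rw [hy]; exact h1⟩
  have ht : (V_ ζ).IsTransitive := isTransitive_vonNeumann _
  have h3 : ({p, y} : ZFSet.{u}) ∈ V_ ζ := ht.mem_trans (by simp [pair]) (ht.mem_trans hy hG)
  exact ht.mem_trans (by simp) h3

theorem exists_defP {p x : ZFSet.{u}} (h : ODp p x) :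
    ∃ β : Ordinal.{u}, ∀ ζ ≥ β, DefP (V_ ζ) p x := by
  obtain ⟨G, ⟨γ, hG⟩, h1⟩ := exists_odfun h
  refine ⟨Order.succ (max γ (rank G)), fun ζ hζ => ?_⟩
  have h2 : max γ (rank G) < ζ := (Order.lt_succ _).trans_le hζ
  exact ⟨V_ γ, vonNeumann_mem_vonNeumann_iff.2 ((le_max_left _ _).trans_lt h2), ⟨γ, rfl⟩, G,
    mem_vonNeumann.2 ((le_max_right _ _).trans_lt h2), hG, (h1 x).2 rfl, fun y _ hy => (h1 y).1 hy⟩

theorem stabP (p X : ZFSet.{u}) : ∃ β : Ordinal.{u}, ∀ ζ ≥ β, ∀ x ∈ X, ODp p x →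
    DefP (V_ ζ) p x := by
  classical
  have h : ∀ x : ZFSet.{u}, ∃ β : Ordinal.{u}, ODp p x → ∀ ζ ≥ β, DefP (V_ ζ) p x := by
    intro x
    by_cases hx : ODp p x
    · obtain ⟨β, hβ⟩ := exists_defP hx
      exact ⟨β, fun _ => hβ⟩
    · exact ⟨0, fun h => absurd h hx⟩
  choose β hβ using h
  refine ⟨⨆ w : {w // w ∈ X}, β w.1, fun ζ hζ x hx hx' => hβ x hx' ζ (le_trans ?_ hζ)⟩
  exact Ordinal.le_iSup (fun w : {w // w ∈ X} => β w.1) ⟨x, hx⟩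

/-- The traces of `A` on the small sets in `HOD` are definable from `p`. -/
def AppC (W d a A p : ZFSet.{u}) : Prop :=
  ∀ T, T ⊆ a → ((∃ U ∈ W, Lev U ∧ ODat U T) ∧
    ∃ c ∈ d, ∃ g, IsFunc c a g ∧ ∀ y ∈ T, ∃ i ∈ c, pair i y ∈ g) →
    ∃ B, B ⊆ a ∧ (((∀ z ∈ B, z ∈ A ∧ z ∈ T) ∧ ∀ z ∈ T, z ∈ A → z ∈ B) ∧ DefP W p B)

theorem dfn_AppC (a b c d e : ℕ) :
    Dfn Lvl.{u} (fun v => AppC (v a) (v b) (v c) (v d) (v e)) := by
  unfold AppC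
  repeat' first
    | exact Dfn.mem _ _ | exact dfn_pm Lvl_sub_Trs _ _ _ | exact dfn_lev _ | exact dfn_ODat _ _
    | exact dfn_DefP _ _ _
    | refine Dfn.exsub subset_rfl _ ?_ | refine Dfn.allsub subset_rfl _ ?_
    | refine Dfn.exfun _ _ ?_ | refine Dfn.and ?_ ?_
    | refine Dfn.imp ?_ ?_
    | refine Dfn.ball Lvl_sub_Trs _ ?_ | refine Dfn.bex Lvl_sub_Trs _ ?_

/-- **Approximation.** If the HOD Hypothesis holds then a set of ordinals is definable from ordinals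
and `p ∈ V_δ` as soon as all its intersections with sets in HOD of size less than `δ` are. -/
theorem approx_fam {δ : Ordinal.{u}} (hδ : Extendible δ) (hFam : Families δ) {p : ZFSet.{u}}
    (hp : p ∈ V_ δ) {α : Ordinal.{u}} {A : ZFSet.{u}} (hA : A ⊆ α.toZFSet)
    (h : ∀ T, HOD T → T ⊆ α.toZFSet → (∃ c < δ, Few c T) → ODp p (A ∩ T)) : ODp p A := by
  obtain ⟨β₀, hβ₀⟩ := stabP p (powerset α.toZFSet)
  obtain ⟨ζ, ζ', η, θ, τ, j, hβζ, G⟩ := exists_setup hδ hFam α β₀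
  have D := G.D
  have hαη := G.hαζ.trans G.hζη
  have hαV : α.toZFSet ∈ V_ η := ExtData.ordB hαη
  have hW : V_ ζ ∈ V_ η := vonNeumann_mem_vonNeumann_iff.2 G.hζη
  have hAη : A ∈ V_ η := Lvl_sub D.E.lvl hαV hA
  have hpη : p ∈ V_ η := vonNeumann_subset_of_le D.lt.le hp
  obtain ⟨g, hg⟩ : ∃ g : ZFSet.{u}, g = gr α.toZFSet (fun x => j x) := ⟨_, rfl⟩
  have hgf : IsFunc α.toZFSet (j α.toZFSet) g := by
    rw [hg]
    exact isFunc_gr fun x hx => (D.E.mem_iff (D.E.bt.mem_trans hx hαV) hαV).1 hx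
  have hgOD : ∃ β < ζ', ODat (V_ β) g := by rw [hg]; exact G.g
  obtain ⟨T, hT, hTs, β, hβ, hTβ⟩ := setup_img G
  have hap : AppC (V_ ζ) δ.toZFSet α.toZFSet A p := by
    rintro S hSα ⟨⟨U, _, ⟨γ, rfl⟩, hU⟩, c, hc, e, he, hce⟩
    obtain ⟨c, hc', rfl⟩ := Ordinal.mem_toZFSet_iff.1 hc
    have hS : HOD S := HOD_of_sub ⟨γ, hU⟩ fun z hz => (HOD_ord α).mem (hSα hz)
    have hfew : Few c S := by
      refine ⟨fun i => rank (app e i.toZFSet), fun y hy => ?_⟩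
      obtain ⟨i, hi, hiy⟩ := hce _ hy
      obtain ⟨i, hi', rfl⟩ := Ordinal.mem_toZFSet_iff.1 hi
      refine ⟨i, hi', ?_⟩
      show rank (app e i.toZFSet) = y
      rw [(app_iff he hi).1 hiy, Ordinal.rank_toZFSet]
    have h1 := h S hS hSα ⟨c, hc', hfew⟩
    refine ⟨A ∩ S, fun z hz => hA (mem_inter.1 hz).1, ⟨fun z hz => mem_inter.1 hz, fun z h1 h2 =>
      mem_inter.2 ⟨h2, h1⟩⟩, hβ₀ ζ hβζ.le _ (mem_powerset.2 fun z hz => hA (mem_inter.1 hz).1) h1⟩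
  have hap' := (D.E.el.t5 D.E.lvl D.nl (A := fun a b c d e => AppC a b c d e)
    (dfn_AppC _ _ _ _ _) hW D.dB hαV hAη hpη).1 hap
  rw [G.jW, D.jd, D.fixV hp] at hap'
  obtain ⟨B, hBs, ⟨hB1, hB2⟩, hBp⟩ := hap' T hTs ⟨⟨V_ β, vonNeumann_mem_vonNeumann_iff.2 hβ,
    ⟨β, rfl⟩, hTβ⟩, α.toZFSet, tz_mem.2 (hαη.trans D.ητ), g, hgf, fun y hy => by
      obtain ⟨i, hi, rfl⟩ := (hT y).1 hy
      exact ⟨i, hi, by rw [hg, pair_mem_gr]; exact ⟨hi, rfl⟩⟩⟩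
  have hB := hBp.odp
  obtain ⟨β', _, hgβ⟩ := hgOD
  have hgp : ODp p g := OD.odp ⟨β', hgβ⟩ p
  refine odp_of2 (R := fun y x => (∀ z ∈ y, z ∈ x 2 ∧ ∃ w ∈ x 0, pair z w ∈ x 1) ∧
      ∀ z ∈ x 2, (∃ w ∈ x 0, pair z w ∈ x 1) → z ∈ y)
    (x := asg B g α.toZFSet ∅ ∅ ∅) ?_ hB hgp
    (asg_ord (isOrdinal_toZFSet _) empty_ord empty_ord empty_ord) (fun y => ?_)
  · refine Dfn.and ?_ ?_
    · exact Dfn.ball Lvl_sub_Trs _ ((Dfn.mem _ _).and (Dfn.bex Lvl_sub_Trs _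
        (dfn_pm Lvl_sub_Trs _ _ _)))
    · exact Dfn.ball Lvl_sub_Trs _ ((Dfn.bex Lvl_sub_Trs _
        (dfn_pm Lvl_sub_Trs _ _ _)).imp (Dfn.mem _ _))
  · show ((∀ z ∈ y, z ∈ α.toZFSet ∧ ∃ w ∈ B, pair z w ∈ g) ∧
      ∀ z ∈ α.toZFSet, (∃ w ∈ B, pair z w ∈ g) → z ∈ y) ↔ y = A
    have key : ∀ z ∈ α.toZFSet, (∃ w ∈ B, pair z w ∈ g) ↔ z ∈ A := by
      intro z hz
      have hzη : z ∈ V_ η := D.E.bt.mem_trans hz hαV
      constructor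
      · rintro ⟨w, hw, hzw⟩
        rw [hg, pair_mem_gr] at hzw
        rw [← hzw.2] at hw
        exact (D.E.mem_iff hzη hAη).2 (hB1 _ hw).1
      · intro hzA
        refine ⟨j z, hB2 _ ((hT _).2 ⟨z, hz, rfl⟩) ((D.E.mem_iff hzη hAη).1 hzA), ?_⟩
        rw [hg, pair_mem_gr]
        exact ⟨hz, rfl⟩
    constructor
    · rintro ⟨h1, h2⟩
      ext z
      exact ⟨fun hz => (key z (h1 z hz).1).1 (h1 z hz).2, fun hz => h2 z (hA hz)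
        ((key z (hA hz)).2 hz)⟩
    · rintro rfl
      exact ⟨fun z hz => ⟨hA hz, (key z (hA hz)).2 hz⟩, fun z h1 h2 => (key z h1).1 h2⟩

end Pool.Agent.H644
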