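import Pool.Agent.H644.App1
import Pool.Agent.H639.Jen5
import Pool.Agent.H639.Hp4

/-!
The approximation property, part 2: small sets; unbounded small sets make an ordinal singular.
-/

set_option autoImplicit false
set_option linter.unusedVariables false

namespace Pool.Agent.H644

open Pool.Agent.H310.HD Pool.Agent.H639 Gss969 ZFSet Pool.Agent.Results.MP_e37c09_lc.AlternativeA

universe u

/-- An ordinal with a small unbounded subset in `HOD_p` is singular in `HOD_p`. -/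
theorem sing_of_unb {p B : ZFSet.{u}} {μ γ : Ordinal.{u}} (hB : HODp p B) (hfew : Few μ B)
    (hunb : ∀ x < γ, ∃ y : Ordinal.{u}, x < y ∧ y < γ ∧ y.toZFSet ∈ B) (hμ : μ.card < γ.card) :
    CofinalP (HODp p) γ.toZFSet := by
  classical
  obtain ⟨C, hC⟩ : ∃ C, C = B ∩ γ.toZFSet := ⟨_, rfl⟩
  have hCγ : C ⊆ γ.toZFSet := by rw [hC]; exact fun z hz => (mem_inter.1 hz).2
  have hCp : ODp p C := by
    rw [hC]
    exact odp_inter hB.odp ((OD_ord γ).odp p)
  obtain ⟨r, hr, hinj⟩ := exists_rank (isWO_ElB hCγ) fun x _ h => mem_irrefl _ (pair_mem_ElB.1 h).2.2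
  have hini := rk_initial hr
  have hrp := odp_rank hCp (odp_ElB hCp) hr
  -- the order type of `C`
  obtain ⟨a, ha, hamin⟩ := WellFounded.has_min (wellFounded_lt (α := Ordinal.{u}))
    {a | ∀ z ∈ C, r z < a} (by
      obtain ⟨b, hb⟩ := exists_rk_bound C r
      exact ⟨b, hb⟩)
  have hran : ∀ o < a, ∃ z ∈ C, r z = o := by
    intro o ho
    have h1 : ¬ ∀ z ∈ C, r z < o := fun h1 => hamin o h1 ho
    push Not at h1
    obtain ⟨z, hz, h2⟩ := h1
    rcases h2.lt_or_eq with h3 | h3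
    · exact hini z hz o h3
    · exact ⟨z, hz, h3.symm⟩
  have hE : ∀ o : Ordinal.{u}, ∃ z : Ordinal.{u}, o < a → z.toZFSet ∈ C ∧ r z.toZFSet = o := by
    intro o
    by_cases ho : o < a
    · obtain ⟨z, hz, h1⟩ := hran o ho
      obtain ⟨z, _, rfl⟩ := Ordinal.mem_toZFSet_iff.1 (hCγ hz)
      exact ⟨z, fun _ => ⟨hz, h1⟩⟩
    · exact ⟨0, fun h => absurd h ho⟩
  choose E hE using hE
  have hfewC : Few μ C := hfew.sub (by rw [hC]; exact fun z hz => (mem_inter.1 hz).1)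
  have haμ : a.card ≤ μ.card := hfewC.card_le E (fun i hi => (hE i hi).1) fun i hi i' hi' h => by
    rw [← (hE i hi).2, ← (hE i' hi').2, h]
  have haγ : a < γ := by
    by_contra hc
    push Not at hc
    exact absurd (hμ.trans_le ((Ordinal.card_le_card hc).trans haμ)) (lt_irrefl _)
  have hEγ : ∀ o < a, E o < γ := fun o ho => tzm.1 (hCγ (hE o ho).1)
  refine ⟨a.toZFSet, tzm.2 haγ, gz a fun o => (E o).toZFSet, ?_, isFunc_gz fun o ho =>
    tzm.2 (hEγ o ho), fun y hy => ?_⟩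
  · have hmem : ∀ q, q ∈ (gz a fun i => (E i).toZFSet) ↔
        ∃ i < a, q = pair i.toZFSet (E i).toZFSet := by
      intro q
      unfold gz
      rw [mem_gr]
      constructor
      · rintro ⟨x, hx, rfl⟩
        obtain ⟨i, hi, rfl⟩ := Ordinal.mem_toZFSet_iff.1 hx
        exact ⟨i, hi, by rw [Ordinal.rank_toZFSet]⟩
      · rintro ⟨i, hi, rfl⟩
        exact ⟨_, tzm.2 hi, by rw [Ordinal.rank_toZFSet]⟩
    refine hodp_of_sub ?_ fun q hq => ?_
    · refine odp_of2 (R := fun w x => (∀ q ∈ w, ∃ o ∈ x 2, ∃ y ∈ x 3, q = pair o y ∧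
            pair y o ∈ x 0) ∧ ∀ o ∈ x 2, ∀ y ∈ x 3, pair y o ∈ x 0 → pair o y ∈ w)
        (x := asg (gr C fun z => (r z).toZFSet) (gr C fun z => (r z).toZFSet) a.toZFSet
          γ.toZFSet ∅ ∅) ?_ hrp hrp
        (asg_ord (isOrdinal_toZFSet _) (isOrdinal_toZFSet _) empty_ord empty_ord) (fun w => ?_)
      · refine Dfn.and ?_ ?_
        · exact Dfn.ball Lvl_sub_Trs _ (Dfn.bex Lvl_sub_Trs _ (Dfn.bex Lvl_sub_Trs _
            ((dfn_pair Lvl_sub_Trs _ _ _).and (dfn_pm Lvl_sub_Trs _ _ _))))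
        · exact Dfn.ball Lvl_sub_Trs _ (Dfn.ball Lvl_sub_Trs _
            ((dfn_pm Lvl_sub_Trs _ _ _).imp (dfn_pm Lvl_sub_Trs _ _ _)))
      · have hG : ∀ o < a, ∀ y, pair y o.toZFSet ∈ (gr C fun z => (r z).toZFSet) ↔
            y = (E o).toZFSet := by
          intro o ho y
          rw [pair_mem_gr]
          constructor
          · rintro ⟨h1, h2⟩
            refine hinj _ h1 _ (hE o ho).1 ?_
            rw [(hE o ho).2]
            exact Ordinal.toZFSet_injective h2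
          · rintro rfl
            exact ⟨(hE o ho).1, by rw [(hE o ho).2]⟩
        show (∀ q ∈ w, ∃ o ∈ a.toZFSet, ∃ y ∈ γ.toZFSet, q = pair o y ∧
            pair y o ∈ (gr C fun z => (r z).toZFSet)) ∧
          (∀ o ∈ a.toZFSet, ∀ y ∈ γ.toZFSet, pair y o ∈ (gr C fun z => (r z).toZFSet) →
            pair o y ∈ w) ↔ _
        constructor
        · rintro ⟨h1, h2⟩
          ext q
          rw [hmem]
          constructor
          · intro hq
            obtain ⟨o, ho, y, _, rfl, h3⟩ := h1 q hq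
            obtain ⟨o, ho', rfl⟩ := Ordinal.mem_toZFSet_iff.1 ho
            exact ⟨o, ho', by rw [(hG o ho' y).1 h3]⟩
          · rintro ⟨o, ho, rfl⟩
            exact h2 _ (tzm.2 ho) _ (tzm.2 (hEγ o ho)) ((hG o ho _).2 rfl)
        · rintro rfl
          refine ⟨fun q hq => ?_, fun o ho y _ h3 => ?_⟩
          · obtain ⟨o, ho, rfl⟩ := (hmem q).1 hq
            exact ⟨_, tzm.2 ho, _, tzm.2 (hEγ o ho), rfl, (hG o ho _).2 rfl⟩
          · obtain ⟨o, ho', rfl⟩ := Ordinal.mem_toZFSet_iff.1 ho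
            exact pair_gz.2 ⟨ho', ((hG o ho' y).1 h3).symm⟩
    · obtain ⟨o, ho, rfl⟩ := (hmem q).1 hq
      exact hodp_pair ((HOD_ord _).hodp p) ((HOD_ord _).hodp p)
  · obtain ⟨y, hy', rfl⟩ := Ordinal.mem_toZFSet_iff.1 hy
    obtain ⟨z, h1, h2, h3⟩ := hunb y hy'
    have hzC : z.toZFSet ∈ C := by rw [hC]; exact mem_inter.2 ⟨h3, tzm.2 h2⟩
    have h4 : r z.toZFSet < a := ha _ hzC
    refine ⟨(r z.toZFSet).toZFSet, tzm.2 h4, z.toZFSet, tzm.2 h2, ?_, tzm.2 h1⟩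
    exact pair_gz.2 ⟨h4, hinj _ (hE _ h4).1 _ hzC (hE _ h4).2⟩

/-- `T` has fewer than `κ` elements (for a cardinal `κ`). -/
def Small (κ : Ordinal.{u}) (T : ZFSet.{u}) : Prop :=
  ∃ c < κ, ∃ e : Ordinal.{u} → ZFSet.{u}, ∀ y ∈ T, ∃ i < c, e i = y

theorem Small.few {κ : Ordinal.{u}} {T : ZFSet.{u}} (h : Small κ T) : ∃ c < κ, Few c T := by
  obtain ⟨c, hc, e, he⟩ := h
  refine ⟨c, hc, fun i => rank (e i), fun y hy => ?_⟩
  obtain ⟨i, hi, h1⟩ := he _ hy
  exact ⟨i, hi, by simp only [h1, Ordinal.rank_toZFSet]⟩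

/-- `κ`-approximation for countable subsets of `l`: a countable set `A` of ordinals below `l` is in
`M` if its intersections with the elements of `M` of size less than `κ` are in `M`. -/
def ApproxOm (κ l : Ordinal.{u}) (M : ZFSet.{u} → Prop) : Prop :=
  ∀ (f : ℕ → Ordinal.{u}) (A : ZFSet.{u}), (∀ n, f n < l) → (∀ x, x ∈ A ↔ ∃ n, x = (f n).toZFSet) →
    (∀ T, M T → Small κ T → M (A ∩ T)) → M A

/-- `M` contains all finite sets of ordinals. -/
def FinSets (M : ZFSet.{u} → Prop) : Prop :=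
  ∀ (s : Finset Ordinal.{u}) (B : ZFSet.{u}), (∀ x, x ∈ B ↔ ∃ a ∈ s, x = a.toZFSet) → M B

theorem sing_of_approx {p : ZFSet.{u}} {M : ZFSet.{u} → Prop} {κ γ : Ordinal.{u}}
    (hM : ∀ x, M x → HODp p x) (hfin : FinSets M) (hap : ApproxOm κ γ M)
    (hω : Ordinal.omega0.{u}.card < γ.card) (hκ : κ.card < γ.card) (hc : CofOm γ.toZFSet) :
    CofinalP (HODp p) γ.toZFSet := by
  classical
  obtain ⟨f, hf, hfc⟩ := hc
  have hn : ∀ n : ℕ, (n : Ordinal.{u}).toZFSet ∈ om.{u} := fun n => by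
    unfold om; exact tzm.2 (Ordinal.natCast_lt_omega0 n)
  have hfr : ∀ n : ℕ, (rank (app f (n : Ordinal.{u}).toZFSet)).toZFSet =
      app f (n : Ordinal.{u}).toZFSet := fun n => by
    obtain ⟨y, _, h1⟩ := Ordinal.mem_toZFSet_iff.1 (app_mem hf (hn n))
    rw [← h1, Ordinal.rank_toZFSet]
  obtain ⟨F, hF⟩ : ∃ F : ℕ → Ordinal.{u}, F = fun n : ℕ => rank (app f (n : Ordinal.{u}).toZFSet) :=
    ⟨_, rfl⟩
  have hFγ : ∀ n, F n < γ := fun n => by
    rw [hF, ← tzm, hfr]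
    exact app_mem hf (hn n)
  have hFc : ∀ x < γ, ∃ n, x < F n := by
    intro x hx
    obtain ⟨n, hn', y, hy, hny, hξy⟩ := hfc _ (tzm.2 hx)
    unfold om at hn'
    obtain ⟨n, hn'', rfl⟩ := Ordinal.mem_toZFSet_iff.1 hn'
    obtain ⟨n, rfl⟩ := Ordinal.lt_omega0.1 hn''
    obtain ⟨y, hy', rfl⟩ := Ordinal.mem_toZFSet_iff.1 hy
    refine ⟨n, ?_⟩
    rw [hF]
    show x < rank (app f (n : Ordinal.{u}).toZFSet)
    rw [(app_iff hf (hn n)).1 hny, Ordinal.rank_toZFSet]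
    exact tzm.1 hξy
  -- the running maximum
  obtain ⟨g, hg⟩ : ∃ g : ℕ → Ordinal.{u}, g = fun n => (Finset.range (n + 1)).sup F := ⟨_, rfl⟩
  have hgF : ∀ n, F n ≤ g n := fun n => by
    rw [hg]
    exact Finset.le_sup (f := F) (Finset.mem_range.2 (Nat.lt_succ_self n))
  have hgm : ∀ m n, m ≤ n → g m ≤ g n := fun m n h => by
    rw [hg]
    exact Finset.sup_mono (Finset.range_subset_range.2 (by omega))
  have hγ0 : (0 : Ordinal.{u}) < γ := lt_of_le_of_lt bot_le (hFγ 0)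
  have hgγ : ∀ n, g n < γ := fun n => by
    rw [hg]
    exact (Finset.sup_lt_iff (by simpa using hγ0)).2 fun b _ => hFγ b
  have hgc : ∀ x < γ, ∃ n, x < g n := fun x hx => by
    obtain ⟨n, h⟩ := hFc x hx
    exact ⟨n, h.trans_le (hgF n)⟩
  obtain ⟨A, hA⟩ : ∃ A : ZFSet.{u}, A = ZFSet.sep (fun x => ∃ n, x = (g n).toZFSet) γ.toZFSet :=
    ⟨_, rfl⟩
  have hA' : ∀ x, x ∈ A ↔ ∃ n, x = (g n).toZFSet := by
    intro x
    rw [hA, mem_sep]
    refine ⟨fun h => h.2, fun h => ⟨?_, h⟩⟩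
    obtain ⟨n, rfl⟩ := h
    exact tzm.2 (hgγ n)
  by_cases hb : ∀ T, M T → Small κ T → ∃ x < γ, ∀ y : Ordinal.{u}, x < y → y < γ → ¬ y.toZFSet ∈ T
  · -- all small sets in `M` are bounded in `γ`
    have hMA : M A := by
      refine hap g A hgγ hA' fun T hT hTs => ?_
      obtain ⟨x, hx, hxT⟩ := hb T hT hTs
      obtain ⟨N, hN⟩ := hgc x hx
      refine hfin (((Finset.range N).image g).filter fun a => a.toZFSet ∈ T) _ fun y => ?_
      rw [mem_inter, hA']
      constructor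
      · rintro ⟨⟨n, rfl⟩, h⟩
        refine ⟨g n, Finset.mem_filter.2 ⟨Finset.mem_image.2 ⟨n, ?_, rfl⟩, h⟩, rfl⟩
        rw [Finset.mem_range]
        by_contra hc
        push Not at hc
        exact hxT (g n) (hN.trans_le (hgm _ _ hc)) (hgγ n) h
      · rintro ⟨a, ha, rfl⟩
        rw [Finset.mem_filter, Finset.mem_image] at ha
        obtain ⟨⟨n, _, rfl⟩, h⟩ := ha
        exact ⟨⟨n, rfl⟩, h⟩
    refine sing_of_unb (μ := Ordinal.omega0) (hM A hMA) ?_ (fun x hx => ?_) hω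
    · refine ⟨fun i => if hi : ∃ n : ℕ, i = n then g hi.choose else 0, fun y hy => ?_⟩
      obtain ⟨n, h1⟩ := (hA' _).1 hy
      refine ⟨n, Ordinal.natCast_lt_omega0 n, ?_⟩
      have h2 : ∃ m : ℕ, (n : Ordinal.{u}) = m := ⟨n, rfl⟩
      have h3 : h2.choose = n := by exact_mod_cast h2.choose_spec.symm
      simp only [dif_pos h2, h3]
      exact (Ordinal.toZFSet_injective h1).symm
    · obtain ⟨n, h⟩ := hgc x hx
      exact ⟨g n, h, hgγ n, (hA' _).2 ⟨n, rfl⟩⟩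
  · -- an unbounded small set in `M`
    push Not at hb
    obtain ⟨T, hT, hTs, h⟩ := hb
    obtain ⟨c, hc, hfew⟩ := hTs.few
    exact sing_of_unb (hM T hT) hfew h ((Ordinal.card_le_card hc.le).trans_lt hκ)

end Pool.Agent.H644
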