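import Pool.Agent.H644.App2

/-!
The approximation property, part 3: arbitrary subsets of HOD.
-/

set_option autoImplicit false
set_option linter.unusedVariables false

namespace Pool.Agent.H644

open Pool.Agent.H310.HD Pool.Agent.H639 Gss969 ZFSet Pool.Agent.Results.MP_e37c09_lc.AlternativeA

universe u

theorem approx_gen {δ : Ordinal.{u}} (hδ : Extendible δ) (hFam : Families δ) {p : ZFSet.{u}}
    (hp : p ∈ V_ δ) {A : ZFSet.{u}} (hA : ∀ x ∈ A, HOD x)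
    (h : ∀ T, HOD T → Small δ T → ODp p (A ∩ T)) : HODp p A := by
  classical
  refine hodp_of_sub ?_ fun z hz => (hA z hz).hodp p
  obtain ⟨ρ, hρ⟩ := exists_mem_vonNeumann A
  obtain ⟨Q, hQ⟩ : ∃ Q : ZFSet.{u}, Q = ZFSet.sep HOD (V_ (max ρ 1)) := ⟨_, rfl⟩
  have hQH : HOD Q := by rw [hQ]; exact HOD_sepHOD (OD_V _)
  have h0 : ∅ ∈ Q := by
    rw [hQ, mem_sep]
    refine ⟨mem_vonNeumann.2 ?_, HOD_empty⟩
    rw [rank_empty]
    exact lt_of_lt_of_le zero_lt_one (le_max_right _ _)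
  have hAQ : A ⊆ Q := by
    intro x hx
    rw [hQ, mem_sep]
    exact ⟨vonNeumann_subset_of_le (le_max_left _ _) ((isTransitive_vonNeumann ρ).mem_trans hx hρ),
      hA x hx⟩
  obtain ⟨κ, E, hE, hEQ, hEs⟩ := exists_enum hQH h0
  obtain ⟨A', hA'⟩ : ∃ A' : ZFSet.{u}, A' = ZFSet.sep (fun i => E (rank i) ∈ A) κ.toZFSet :=
    ⟨_, rfl⟩
  have hA's : A' ⊆ κ.toZFSet := by rw [hA']; exact sep_subset
  have hmA' : ∀ i : Ordinal.{u}, i.toZFSet ∈ A' ↔ i < κ ∧ E i ∈ A := by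
    intro i
    rw [hA', mem_sep, tzm, Ordinal.rank_toZFSet]
  have key : ODp p A' := by
    refine approx_fam hδ hFam hp hA's fun T hT hTκ hTs => ?_
    obtain ⟨S, hS⟩ : ∃ S : ZFSet.{u}, S = ZFSet.sep (fun x => ∃ i ∈ T, pair i x ∈ gz κ E) Q :=
      ⟨_, rfl⟩
    have hSH : HOD S := by
      rw [hS]
      exact HOD_sep4 (Ψ := fun v => ∃ i ∈ v 2, pair i (v 0) ∈ v 3)
        (Dfn.bex Lvl_sub_Trs _ (dfn_pm Lvl_sub_Trs _ _ _)) hQH hT hE HOD_empty 0 0 0 0 0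
    have hSs : Small δ S := by
      obtain ⟨c, hc, g, hg⟩ := hTs
      refine ⟨c, hc, fun i => E (g i), fun y hy => ?_⟩
      rw [hS, mem_sep] at hy
      obtain ⟨_, i, hi, hiy⟩ := hy
      obtain ⟨i, hi', rfl⟩ := Ordinal.mem_toZFSet_iff.1 (hTκ hi)
      obtain ⟨k, hk, h1⟩ := hg i hi
      exact ⟨k, hk, by simp only [h1]; exact (pair_gz.1 hiy).2⟩
    have hAS := h S hSH hSs
    refine odp_of4 (R := fun y x => (∀ z ∈ y, z ∈ x 2 ∧ ∃ w ∈ x 0, pair z w ∈ x 1) ∧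
        ∀ z ∈ x 2, (∃ w ∈ x 0, pair z w ∈ x 1) → z ∈ y)
      (x := as (A ∩ S) (gz κ E) T ∅ ∅ ∅ ∅ ∅ ∅ ∅) ?_ hAS (hE.hodp p).odp (hT.hodp p).odp
      (HOD_empty.hodp p).odp (fun i => ?_) (fun y => ?_)
    · refine Dfn.and ?_ ?_
      · exact Dfn.ball Lvl_sub_Trs _ ((Dfn.mem _ _).and (Dfn.bex Lvl_sub_Trs _
          (dfn_pm Lvl_sub_Trs _ _ _)))
      · exact Dfn.ball Lvl_sub_Trs _ ((Dfn.bex Lvl_sub_Trs _
          (dfn_pm Lvl_sub_Trs _ _ _)).imp (Dfn.mem _ _))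
    · rcases i with _ | _ | _ | _ | _ | i <;> exact empty_ord
    · show ((∀ z ∈ y, z ∈ T ∧ ∃ w ∈ A ∩ S, pair z w ∈ gz κ E) ∧
        ∀ z ∈ T, (∃ w ∈ A ∩ S, pair z w ∈ gz κ E) → z ∈ y) ↔ y = A' ∩ T
      have hk : ∀ z ∈ T, (∃ w ∈ A ∩ S, pair z w ∈ gz κ E) ↔ z ∈ A' := by
        intro z hz
        obtain ⟨z, hz', rfl⟩ := Ordinal.mem_toZFSet_iff.1 (hTκ hz)
        rw [hmA']
        constructor
        · rintro ⟨w, hw, hzw⟩
          rw [pair_gz] at hzw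
          rw [hzw.2]
          exact ⟨hz', (mem_inter.1 hw).1⟩
        · rintro ⟨_, h1⟩
          refine ⟨E z, mem_inter.2 ⟨h1, ?_⟩, pair_gz.2 ⟨hz', rfl⟩⟩
          rw [hS, mem_sep]
          exact ⟨hEQ z, _, hz, pair_gz.2 ⟨hz', rfl⟩⟩
      constructor
      · rintro ⟨h1, h2⟩
        ext z
        rw [mem_inter]
        exact ⟨fun hz => ⟨(hk z (h1 z hz).1).1 (h1 z hz).2, (h1 z hz).1⟩, fun hz => h2 z hz.2
          ((hk z hz.2).2 hz.1)⟩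
      · rintro rfl
        exact ⟨fun z hz => ⟨(mem_inter.1 hz).2, (hk z (mem_inter.1 hz).2).2 (mem_inter.1 hz).1⟩,
          fun z h1 h2 => mem_inter.2 ⟨(hk z h1).1 h2, h1⟩⟩
  refine odp_of4 (R := fun y x => (∀ z ∈ y, z ∈ x 2 ∧ ∃ i ∈ x 0, pair i z ∈ x 1) ∧
        ∀ z ∈ x 2, (∃ i ∈ x 0, pair i z ∈ x 1) → z ∈ y)
      (x := as A' (gz κ E) Q ∅ ∅ ∅ ∅ ∅ ∅ ∅) ?_ key (hE.hodp p).odp (hQH.hodp p).odp
      (HOD_empty.hodp p).odp (fun i => ?_) (fun y => ?_)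
  · refine Dfn.and ?_ ?_
    · exact Dfn.ball Lvl_sub_Trs _ ((Dfn.mem _ _).and (Dfn.bex Lvl_sub_Trs _
        (dfn_pm Lvl_sub_Trs _ _ _)))
    · exact Dfn.ball Lvl_sub_Trs _ ((Dfn.bex Lvl_sub_Trs _
        (dfn_pm Lvl_sub_Trs _ _ _)).imp (Dfn.mem _ _))
  · rcases i with _ | _ | _ | _ | _ | i <;> exact empty_ord
  · show ((∀ z ∈ y, z ∈ Q ∧ ∃ i ∈ A', pair i z ∈ gz κ E) ∧
        ∀ z ∈ Q, (∃ i ∈ A', pair i z ∈ gz κ E) → z ∈ y) ↔ y = A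
    have hk : ∀ z, (∃ i ∈ A', pair i z ∈ gz κ E) ↔ z ∈ A := by
      intro z
      constructor
      · rintro ⟨i, hi, hiz⟩
        obtain ⟨i, hi', rfl⟩ := Ordinal.mem_toZFSet_iff.1 (hA's hi)
        rw [pair_gz] at hiz
        rw [← hiz.2]
        exact ((hmA' i).1 hi).2
      · intro hz
        obtain ⟨i, hi, h1⟩ := hEs z (hAQ hz)
        refine ⟨i.toZFSet, (hmA' i).2 ⟨hi, by rw [h1]; exact hz⟩, pair_gz.2 ⟨hi, h1⟩⟩
    constructor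
    · rintro ⟨h1, h2⟩
      ext z
      exact ⟨fun hz => (hk z).1 (h1 z hz).2, fun hz => h2 z (hAQ hz) ((hk z).2 hz)⟩
    · rintro rfl
      exact ⟨fun z hz => ⟨hAQ hz, (hk z).2 hz⟩, fun z _ h2 => (hk z).1 h2⟩

end Pool.Agent.H644
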