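import Pool.Agent.H639.Mit8
import Pool.Agent.H639.Sil3

/-!
Decomposition of a set in HOD of points of bounded cofinality into few atoms.
-/

set_option autoImplicit false
set_option linter.unusedVariables false

namespace Pool.Agent.H644

open Pool.Agent.H310.HD Pool.Agent.H639 Gss969 ZFSet

universe u

variable {l s μ : Ordinal.{u}} {A W : ZFSet.{u}}

/-- `v 0 ⊆ v 4` is an atom which is disjoint from the values of `v 1`. -/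
def NxD (v : ℕ → ZFSet.{u}) : Prop :=
  Stat (v 0) (v 6) ∧ ((∀ B ∈ v 3, B ⊆ v 0 → ¬ (Stat B (v 6) ∧ ∃ D, D ⊆ v 0 ∧
    ((∀ z ∈ v 0, (z ∈ D ↔ ¬ z ∈ B)) ∧ Stat D (v 6)))) ∧
   (v 0 ⊆ v 4 ∧
    ∀ j ∈ v 2, ∀ Y ∈ v 3, pair j Y ∈ v 1 → ∀ α ∈ v 0, ¬ α ∈ Y))

theorem dfn_NxD : Dfn Lvl.{u} NxD := by
  unfold NxD
  refine (dfn_Stat _ _).and (Dfn.and ?_ (Dfn.and ?_ ?_))
  · refine Dfn.ball Lvl_sub_Trs _ ((dfn_sub Lvl_sub_Trs _ _).imp (Dfn.not ((dfn_Stat _ _).and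
      (Dfn.exsub subset_rfl _ (Dfn.and ?_ (dfn_Stat _ _))))))
    exact Dfn.ball Lvl_sub_Trs _ ((Dfn.mem _ _).iff (Dfn.mem _ _).not)
  · exact dfn_sub Lvl_sub_Trs _ _
  · repeat' first
      | exact Dfn.mem _ _ | exact dfn_pm Lvl_sub_Trs _ _ _ | refine Dfn.not ?_
      | refine Dfn.ball Lvl_sub_Trs _ ?_ | refine Dfn.imp ?_ ?_

/-- The sequence of disjoint atoms contained in `A`. -/
noncomputable def DD (l : Ordinal.{u}) (A W : ZFSet.{u}) : Ordinal.{u} → ZFSet.{u} :=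
  rc (fun X f i => NxD (as X f i (Ph l.toZFSet) A A l.toZFSet (0 : Ordinal.{u}).toZFSet
    (0 : Ordinal.{u}).toZFSet (0 : Ordinal.{u}).toZFSet)) (Ph l.toZFSet) W

theorem DD_mem (hWO : IsWO W (Ph l.toZFSet)) (i : Ordinal.{u}) :
    DD l A W i ∈ Ph l.toZFSet := rc_mem _ hWO empty_mem_Ph i

theorem HOD_gz_DD (hA : HOD A) (hW : HOD W) (hWO : IsWO W (Ph l.toZFSet)) (i : Ordinal.{u}) :
    HOD (gz i (DD l A W)) :=
  HOD_rc dfn_NxD (HOD_Ph (HOD_ord l)) hW hWO empty_mem_Ph hA hA l 0 0 0 i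

/-- The properties of the `i`-th atom. -/
def IsD (l i : Ordinal.{u}) (A : ZFSet.{u}) (F : Ordinal.{u} → ZFSet.{u}) (X : ZFSet.{u}) : Prop :=
  Atom l.toZFSet X ∧ X ⊆ A ∧ ∀ j < i, ∀ α ∈ X, ¬ α ∈ F j

theorem nxD_iff {F : Ordinal.{u} → ZFSet.{u}} {i : Ordinal.{u}} {X q b c d : ZFSet.{u}}
    (hF : ∀ j < i, F j ∈ Ph l.toZFSet) (hX : X ∈ Ph l.toZFSet) :
    NxD (as X (gz i F) i.toZFSet (Ph l.toZFSet) A q l.toZFSet b c d) ↔ IsD l i A F X := by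
  show Stat X l.toZFSet ∧ ((∀ B ∈ Ph l.toZFSet, B ⊆ X → ¬ (Stat B l.toZFSet ∧ ∃ D, D ⊆ X ∧
    ((∀ z ∈ X, (z ∈ D ↔ ¬ z ∈ B)) ∧ Stat D l.toZFSet))) ∧
   (X ⊆ A ∧
    ∀ j ∈ i.toZFSet, ∀ Y ∈ Ph l.toZFSet, pair j Y ∈ gz i F → ∀ α ∈ X, ¬ α ∈ Y)) ↔ _
  rw [mem_Ph] at hX
  have e1 : (∀ B ∈ Ph l.toZFSet, B ⊆ X → ¬ (Stat B l.toZFSet ∧ ∃ D, D ⊆ X ∧
      ((∀ z ∈ X, (z ∈ D ↔ ¬ z ∈ B)) ∧ Stat D l.toZFSet))) ↔
      ∀ B, B ⊆ X → HOD B → ¬ (Stat B l.toZFSet ∧ Stat (dif X B) l.toZFSet) := by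
    constructor
    · rintro h B h1 h2 ⟨h3, h4⟩
      refine h B (mem_Ph.2 ⟨fun x hx => hX.1 (h1 hx), h2⟩) h1 ⟨h3, dif X B, sep_subset,
        fun z hz => ?_, h4⟩
      rw [mem_dif]
      exact ⟨fun h => h.2, fun h => ⟨hz, h⟩⟩
    · rintro h B h1 h2 ⟨h3, D, h4, h5, h6⟩
      refine h B h2 (mem_Ph.1 h1).2 ⟨h3, ?_⟩
      have : dif X B = D := by
        ext z
        rw [mem_dif]
        exact ⟨fun h => (h5 z h.1).2 h.2, fun h => ⟨h4 h, (h5 z (h4 h)).1 h⟩⟩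
      rwa [this]
  have e3 : (∀ j ∈ i.toZFSet, ∀ Y ∈ Ph l.toZFSet, pair j Y ∈ gz i F → ∀ α ∈ X, ¬ α ∈ Y) ↔
      ∀ j < i, ∀ α ∈ X, ¬ α ∈ F j := by
    constructor
    · intro h j hj α hα
      exact h _ (tzm.2 hj) _ (hF j hj) (pair_gz.2 ⟨hj, rfl⟩) α hα
    · intro h j hj Y hY h1 α hα
      obtain ⟨j, hj', rfl⟩ := Ordinal.mem_toZFSet_iff.1 hj
      rw [← (pair_gz.1 h1).2]
      exact h j hj' α hα
  rw [e1, e3]
  unfold IsD Atom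
  constructor
  · rintro ⟨h1, h2, h3⟩
    exact ⟨⟨hX.2, hX.1, h1, h2⟩, h3⟩
  · rintro ⟨⟨_, _, h1, h2⟩, h3⟩
    exact ⟨h1, h2, h3⟩

theorem DD_spec (hWO : IsWO W (Ph l.toZFSet)) {i : Ordinal.{u}}
    (h : ∃ X, IsD l i A (DD l A W) X) : IsD l i A (DD l A W) (DD l A W i) := by
  obtain ⟨X, hX⟩ := h
  have hXP : X ∈ Ph l.toZFSet := mem_Ph.2 ⟨hX.1.2.1, hX.1.1⟩
  have h1 := lst_spec (fun X => NxD (as X (gz i (DD l A W)) i.toZFSet (Ph l.toZFSet) A A l.toZFSet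
    (0 : Ordinal.{u}).toZFSet (0 : Ordinal.{u}).toZFSet (0 : Ordinal.{u}).toZFSet)) hWO
  have h2 : DD l A W i = _ := rc_eq _ _ _ _
  rw [← nxD_iff (fun j _ => DD_mem hWO j) (DD_mem hWO i) (q := A)
    (b := (0 : Ordinal.{u}).toZFSet) (c := (0 : Ordinal.{u}).toZFSet)
    (d := (0 : Ordinal.{u}).toZFSet)]
  rw [← nxD_iff (fun j _ => DD_mem hWO j) hXP (q := A)
    (b := (0 : Ordinal.{u}).toZFSet) (c := (0 : Ordinal.{u}).toZFSet)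
    (d := (0 : Ordinal.{u}).toZFSet)] at hX
  rcases h1 with ⟨_, h4, _⟩ | ⟨h4, _⟩
  · rw [h2]
    exact h4
  · exact absurd ⟨X, hXP, hX⟩ h4

/-- **Decomposition into atoms.** -/
theorem decomp (hl : RegUnc l.toZFSet) (hs : s < l)
    (hP : ∃ m < l, ∃ g, IsFunc (Ordinal.toZFSet m) (powerset s.toZFSet) g ∧
      ∀ B, B ⊆ s.toZFSet → ∃ i ∈ (Ordinal.toZFSet m), pair i B ∈ g)
    (hno : ∀ S, HOD S → ¬ Fam μ.toZFSet s.toZFSet l.toZFSet S)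
    (hA : HOD A) (hAl : A ⊆ l.toZFSet) (hAc : ∀ a ∈ A, CofN μ.toZFSet a) :
    ∃ i < s, ∃ F : Ordinal.{u} → ZFSet.{u}, (∀ j < i, Atom l.toZFSet (F j) ∧ F j ⊆ A) ∧
      ∃ C, Club C l.toZFSet ∧ ∀ α ∈ C, α ∈ A → ∃ j < i, α ∈ F j := by
  obtain ⟨W, hW, hWO, _⟩ := exists_wo (HOD_Ph (HOD_ord l))
  have h1 : ∃ i < s, ¬ ∃ X, IsD l i A (DD l A W) X := by
    by_contra hc
    push Not at hc
    have h2 : ∀ i < s, IsD l i A (DD l A W) (DD l A W i) := fun i hi => DD_spec hWO (hc i hi)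
    refine hno _ (HOD_gz_DD hA hW hWO s) ⟨isFunc_gz fun i hi =>
      mem_powerset.2 (h2 i hi).1.2.1, fun i hi X hX hiX => ?_, fun i hi i' hi' X hX X' hX' hiX hiX'
        hex => ?_⟩
    · obtain ⟨i, hi', rfl⟩ := Ordinal.mem_toZFSet_iff.1 hi
      rw [pair_gz] at hiX
      rw [← hiX.2]
      exact ⟨(h2 i hi').1.2.2.1, fun a ha => hAc a ((h2 i hi').2.1 ha)⟩
    · obtain ⟨i, hi1, rfl⟩ := Ordinal.mem_toZFSet_iff.1 hi
      obtain ⟨i', hi1', rfl⟩ := Ordinal.mem_toZFSet_iff.1 hi'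
      rw [pair_gz] at hiX hiX'
      obtain ⟨ξ, h3, h4⟩ := hex
      rw [← hiX.2] at h3
      rw [← hiX'.2] at h4
      rcases lt_trichotomy i i' with h | h | h
      · exact absurd h3 ((h2 i' hi1').2.2 i h ξ h4)
      · rw [h]
      · exact absurd h4 ((h2 i hi1).2.2 i' h ξ h3)
  obtain ⟨i, ⟨his, hi⟩, hmin⟩ := WellFounded.has_min (wellFounded_lt (α := Ordinal.{u}))
    {i | i < s ∧ ¬ ∃ X, IsD l i A (DD l A W) X} h1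
  have hgood : ∀ j < i, IsD l j A (DD l A W) (DD l A W j) := by
    intro j hj
    refine DD_spec hWO ?_
    by_contra hc
    exact hmin j ⟨hj.trans his, hc⟩ hj
  refine ⟨i, his, DD l A W, fun j hj => ⟨(hgood j hj).1, (hgood j hj).2.1⟩, ?_⟩
  -- the rest
  obtain ⟨R, hR⟩ : ∃ R, R = ZFSet.sep (fun α => ∀ j ∈ i.toZFSet, ¬ InF (gz i (DD l A W)) j α) A :=
    ⟨_, rfl⟩
  have hRH : HOD R := by
    rw [hR]
    exact HOD_sep4 (Ψ := fun v => ∀ j ∈ v 5, ¬ InF (v 2) j (v 0))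
      (Dfn.ball Lvl_sub_Trs _ (dfn_InF _ _ _).not) hA (HOD_gz_DD hA hW hWO i) HOD_empty HOD_empty
      i 0 0 0 0
  have hRA : R ⊆ A := by rw [hR]; exact sep_subset
  have hns : ¬ Stat R l.toZFSet := by
    intro hst
    obtain ⟨A', hA'R, hA'⟩ := exists_atom hl hs hP hno hRH (fun x hx => hAl (hRA hx)) hst
      fun a ha => hAc a (hRA ha)
    refine hi ⟨A', hA', fun x hx => hRA (hA'R hx), fun j hj α hα h3 => ?_⟩
    have h4 := hA'R hα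
    rw [hR, mem_sep] at h4
    exact h4.2 _ (tzm.2 hj) ⟨_, pair_gz.2 ⟨hj, rfl⟩, h3⟩
  unfold Stat at hns
  push Not at hns
  obtain ⟨C, hC1, hC2, hC3⟩ := hns
  refine ⟨C, hC2, fun α hα hαA => ?_⟩
  by_contra hc
  push Not at hc
  refine hC3 α ?_ hα
  rw [hR, mem_sep]
  refine ⟨hαA, fun j hj h3 => ?_⟩
  obtain ⟨j, hj', rfl⟩ := Ordinal.mem_toZFSet_iff.1 hj
  obtain ⟨Y, hY, h4⟩ := h3
  rw [pair_gz] at hY
  rw [← hY.2] at h4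
  exact hc j hj' h4

end Pool.Agent.H644
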