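import Pool.Agent.H644.Dec1

/-!
Club many points of large cofinality below `δ` are measurable in HOD.
-/

set_option autoImplicit false
set_option linter.unusedVariables false

namespace Pool.Agent.H644

open Pool.Agent.H310.HD Pool.Agent.H639 Gss969 ZFSet

universe u

variable {l s μ δ : Ordinal.{u}} {A W : ZFSet.{u}}

/-- If club many points of cofinality `ω` below `α` are in one of fewer than `cf(α)` sets, then one
of these sets is stationary in `α`. -/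
theorem pick {α i : Ordinal.{u}} {F : Ordinal.{u} → ZFSet.{u}} {C : ZFSet.{u}}
    (hμ : RegUnc μ.toZFSet) (hαlim : ∀ x < α, Order.succ x < α) (hα : IsCof μ α)
    (hC : Club C α.toZFSet) (hi : i < μ)
    (h : ∀ β : Ordinal.{u}, β.toZFSet ∈ C → CofOm β.toZFSet → ∃ j < i, β.toZFSet ∈ F j) :
    ∃ j < i, Stat (F j ∩ α.toZFSet) α.toZFSet := by
  obtain ⟨e, he⟩ := exists_nrm hαlim hα.1 hα.2
  have h1 := statL_club hμ (statL_om hμ hμ.pos) (he.club_pre hμ hC)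
  obtain ⟨j, hj, h2⟩ := StatL.union hμ h1 hi (P := fun j ξ => (e ξ).toZFSet ∈ F j) (by
    rintro ξ ⟨⟨_, h3⟩, h4⟩ hξ
    rw [mem_sep, Ordinal.rank_toZFSet] at h4
    exact h _ h4.2 (he.cofOm h3))
  refine ⟨j, hj, ?_⟩
  rw [stat_iff]
  have h3 : StatL {x : Ordinal.{u} | x.toZFSet ∈ F j} α :=
    he.statL hμ (h2.mono fun ξ _ h4 => h4.2)
  refine h3.mono fun x hx h4 => ?_
  show x.toZFSet ∈ F j ∩ α.toZFSet
  exact mem_inter.2 ⟨h4, tzm.2 hx⟩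

/-- The class `HOD` has a measure on `ξ` which is generated by the club filter of `ξ` and one set `A`
of points of cofinality `ω`: for every function `h : ξ → k` in HOD, `k < ξ`, exactly one preimage
`h⁻¹(i)` has stationary intersection with `A`. -/
def ClubMeas (ξ : Ordinal.{u}) : Prop :=
  ∃ A, HOD A ∧ A ⊆ ξ.toZFSet ∧ (∀ a ∈ A, CofOm a) ∧ Stat A ξ.toZFSet ∧
    ∀ k ∈ ξ.toZFSet, ∀ h, HOD h → IsFunc ξ.toZFSet k h →
      ∃ i ∈ k, Stat (pre i h ξ.toZFSet ∩ A) ξ.toZFSet ∧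
        ∀ i' ∈ k, Stat (pre i' h ξ.toZFSet ∩ A) ξ.toZFSet → i' = i

/-- The main step: a pair of atoms. -/
theorem ae_pair {A B : ZFSet.{u}} (hl : RegUnc l.toZFSet) (hA : Atom l.toZFSet A)
    (hB : Atom l.toZFSet B) (hcof : ∀ a ∈ A, CofOm a) (hrefl : ∀ α ∈ B, Stat (A ∩ α) α) :
    ∃ C, Club C l.toZFSet ∧ ∀ α : Ordinal.{u}, α.toZFSet ∈ C → α.toZFSet ∈ B →
      MeasIn HOD α.toZFSet ∧ ClubMeas α := by
  have hAl := hA.2.1
  have hBl := hB.2.1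
  have hl2 : 2 < l := two_lt hl
  have hcofN : ∀ a ∈ A, ∃ m, CofN m a := fun a ha => ⟨_, hcof a ha⟩
  have hmlt := mlt_UA hl hA hB hcofN hrefl
  obtain ⟨E, hE, hEm⟩ := meas_ae hl.om_lt (nmeas_UA hl hA) (nmeas_UA hl hB) hmlt
  -- the function `f`
  let Ψ : (ℕ → ZFSet.{u}) → Prop := fun v => v 0 ⊆ v 1 ∧ StJ (v 0) (v 3) (v 1)
  have hΨ : Dfn Lvl.{u} Ψ := (dfn_sub Lvl_sub_Trs _ _).and (dfn_StJ _ _ _)
  have hH := HOD_fam4 hΨ (A := Ph l.toZFSet) (p := A) (q := ∅) (r := ∅) (HOD_Ph (HOD_ord l))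
    hA.1 HOD_empty HOD_empty 0 0 0 l
  obtain ⟨f, hf⟩ : ∃ f, f = gr l.toZFSet fun i =>
      ZFSet.sep (fun ξ => Ψ (as ξ i (Ph l.toZFSet) A ∅ ∅ (0 : Ordinal.{u}).toZFSet
        (0 : Ordinal.{u}).toZFSet (0 : Ordinal.{u}).toZFSet l.toZFSet)) (Ph l.toZFSet) := ⟨_, rfl⟩
  rw [← hf] at hH
  have hInF : ∀ α ∈ l.toZFSet, ∀ X, InF f α X ↔ X ∈ Ph l.toZFSet ∧ X ⊆ α ∧ StJ X A α := by
    intro α hα X
    constructor
    · rintro ⟨F, h1, h2⟩
      rw [hf] at h1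
      obtain ⟨_, rfl⟩ := pair_mem_gr.1 h1
      obtain ⟨h3, h4, h5⟩ := mem_sep.1 h2
      exact ⟨h3, h4, h5⟩
    · rintro ⟨h1, h2, h3⟩
      have h4 : pair α (ZFSet.sep (fun ξ => Ψ (as ξ α (Ph l.toZFSet) A ∅ ∅
          (0 : Ordinal.{u}).toZFSet (0 : Ordinal.{u}).toZFSet (0 : Ordinal.{u}).toZFSet
          l.toZFSet)) (Ph l.toZFSet)) ∈ f := by
        rw [hf]
        exact pair_mem_gr.2 ⟨hα, rfl⟩
      exact ⟨_, h4, mem_sep.2 ⟨h1, h2, h3⟩⟩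
  have hfU : ∀ X, X ⊆ l.toZFSet → HOD X →
      (X ∈ UA l.toZFSet A ↔ ZFSet.sep (fun α => InF f α (X ∩ α)) l.toZFSet ∈ UA l.toZFSet B) := by
    intro X hX hXH
    have hE : ZFSet.sep (fun α => InF f α (X ∩ α)) l.toZFSet =
        ZFSet.sep (fun α => StJ X A α) l.toZFSet := by
      ext α
      rw [mem_sep, mem_sep]
      refine and_congr_right fun hα => ?_
      rw [hInF α hα]
      have e1 : X ∩ α ∩ A ∩ α = X ∩ A ∩ α := by
        ext z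
        simp only [mem_inter]
        tauto
      constructor
      · rintro ⟨_, _, h5⟩
        rw [stJ_iff, e1] at h5
        exact stJ_iff.2 h5
      · intro h
        refine ⟨mem_Ph.2 ⟨fun z hz => hX (mem_inter.1 hz).1, ?_⟩, fun z hz => (mem_inter.1 hz).2, ?_⟩
        · obtain ⟨a, ha, rfl⟩ := Ordinal.mem_toZFSet_iff.1 hα
          exact HOD_inter hXH (HOD_ord a)
        · rw [stJ_iff, e1]
          exact stJ_iff.1 h
    rw [hE]
    have hEH : HOD (ZFSet.sep (fun α => StJ X A α) l.toZFSet) :=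
      HOD_sep4 (Ψ := fun v => StJ (v 2) (v 3) (v 0)) (dfn_StJ _ _ _) (HOD_ord l) hXH hA.1
        HOD_empty 0 0 0 0 0
    rw [mem_UA hAl, mem_UA hBl]
    constructor
    · rintro ⟨_, _, h1⟩
      obtain ⟨C, hC, h2⟩ := atom_club hl hA hXH h1
      obtain ⟨E, hEc, h3⟩ := club_lim hl hC
      refine ⟨sep_subset, hEH, (statL_club hl (atom_stat hB) hEc).mono fun α hα h4 => ⟨?_, h4.1⟩⟩
      rw [mem_sep]
      refine ⟨tzm.2 hα, stJ_iff.2 fun C1 hC1 hC1' => ?_⟩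
      have h5 := hrefl α.toZFSet h4.1
      have hunc : ¬ CofN Ordinal.omega0.toZFSet α.toZFSet :=
        unc_of_stat h5 fun a ha => hcofN a (mem_inter.1 ha).1
      have h6 := club_inter_cof hunc hC1' (club_inter_ord hC (tzm.2 hα) (h3 _ h4.2).2)
      obtain ⟨a, ha, h7⟩ := h5 _ h6.1 h6
      rw [mem_inter, mem_inter] at h7
      rw [mem_inter] at ha
      exact ⟨a, mem_inter.2 ⟨mem_inter.2 ⟨h2 a h7.2.1 ha.1, ha.1⟩, ha.2⟩, h7.1⟩
    · rintro ⟨_, _, h1⟩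
      refine ⟨hX, hXH, ?_⟩
      by_contra hcon
      unfold StatL at hcon
      push Not at hcon
      obtain ⟨C, _, hC, h2⟩ := hcon
      obtain ⟨E, hEc, h3⟩ := club_lim hl hC
      obtain ⟨α, hα, h4, h5⟩ := statL_nonempty hl (statL_club hl h1 hEc)
      have h6 := stJ_iff.1 (mem_sep.1 h4.1).2
      have h7 := club_inter_ord hC (tzm.2 hα) (h3 _ h5).2
      obtain ⟨a, ha, h8⟩ := h6 _ h7.1 h7
      rw [mem_inter, mem_inter] at ha
      rw [mem_inter] at h8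
      obtain ⟨a, ha', rfl⟩ := Ordinal.mem_toZFSet_iff.1 (hX ha.1.1)
      exact h2 a ha' ha.1 h8.1
  have hG := uni_ae hl2 (nmeas_UA hl hA) (nmeas_UA hl hB) hH hfU
  have hEG := (nmeas_UA hl hB).inter2 hl2 hE hG
  have hEGH : HOD (E ∩ ZFSet.sep (fun α => ∀ p ∈ ZZ l.toZFSet, ¬ Bad f α p) l.toZFSet) :=
    (nmeas_UA hl hB).hodm hEG
  obtain ⟨C, hC, h2⟩ := atom_club hl hB hEGH ((mem_UA hBl).1 hEG).2.2
  refine ⟨C, hC, fun α hα hαB => ?_⟩
  have h3 := mem_inter.1 (h2 _ hα hαB)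
  obtain ⟨hαl, h4⟩ := mem_sep.1 h3.2
  have hαl' : α < l := tzm.1 hαl
  have ht := (isOrdinal_toZFSet l).isTransitive
  refine ⟨hEm _ h3.1, A ∩ α.toZFSet, HOD_inter hA.1 (HOD_ord α), fun z hz => (mem_inter.1 hz).2,
    fun a ha => hcof a (mem_inter.1 ha).1, hrefl _ hαB, fun k hk h hh hfun => ?_⟩
  have hkl : k ∈ l.toZFSet := ht.mem_trans hk hαl
  have hp : pair k h ∈ ZZ l.toZFSet := by
    unfold ZZ
    refine pair_mem_prod.2 ⟨hkl, mem_Ph.2 ⟨fun z hz => ?_, hh⟩⟩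
    have h5 := hfun.1 hz
    obtain ⟨a, ha, b, hb, rfl⟩ := mem_prod.1 h5
    refine pair_mem_prod.2 ⟨ht.mem_trans ha hαl, ht.mem_trans hb hkl⟩
  have h5 := h4 _ hp
  have h6 : Uni f h k α.toZFSet := by
    by_contra hc
    exact h5 ⟨k, hk, h, rfl, hfun, hc⟩
  obtain ⟨i, hi, h7, h8⟩ := h6
  have key : ∀ i, PrF f h i α.toZFSet ↔ Stat (pre i h α.toZFSet ∩ (A ∩ α.toZFSet)) α.toZFSet ∧
      pre i h α.toZFSet ∈ Ph l.toZFSet := by
    intro i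
    rw [prF_iff, hInF _ hαl, stJ_iff]
    have e1 : pre i h α.toZFSet ∩ A ∩ α.toZFSet = pre i h α.toZFSet ∩ (A ∩ α.toZFSet) := by
      ext z
      simp only [mem_inter]
      tauto
    rw [e1]
    exact ⟨fun h => ⟨h.2.2, h.1⟩, fun h => ⟨h.2, sep_subset, h.1⟩⟩
  have hpre : ∀ i' ∈ k, pre i' h α.toZFSet ∈ Ph l.toZFSet := by
    intro i' hi'
    obtain ⟨i', hi'', rfl⟩ := Ordinal.mem_toZFSet_iff.1 (ht.mem_trans hi' hkl)
    refine mem_Ph.2 ⟨fun z hz => ht.mem_trans (mem_sep.1 hz).1 hαl, HOD_pre (HOD_ord α) hh i'⟩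
  exact ⟨i, hi, ((key i).1 h7).1, fun i' hi' h9 => h8 i' hi' ((key i').2 ⟨h9, hpre i' hi'⟩)⟩

end Pool.Agent.H644
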