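import Pool.Agent.H644.Dec2

/-!
The main theorem: if the HOD Hypothesis fails then club many points of every large regular
cofinality below `δ` are measurable in HOD.
-/

set_option autoImplicit false
set_option linter.unusedVariables false

namespace Pool.Agent.H644

open Pool.Agent.H310.HD Pool.Agent.H639 Gss969 ZFSet

universe u

variable {l s μ δ : Ordinal.{u}} {A W : ZFSet.{u}}

theorem club_meas (hδ : Extendible δ) (hB : Bdd δ) :
    ∃ ρ < δ, ∀ l > δ, RegUnc (Ordinal.toZFSet l) → ∀ μ : Ordinal.{u}, RegUnc μ.toZFSet → ρ < μ →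
      μ < δ → ∃ C, Club C l.toZFSet ∧ ∀ α : Ordinal.{u}, α.toZFSet ∈ C → IsCof μ α →
        MeasIn HOD α.toZFSet ∧ ClubMeas α := by
  obtain ⟨s, hs, hno⟩ := hB _ hδ.om_lt
  refine ⟨s, hs, fun l hδl hl μ hμ hsμ hμδ => ?_⟩
  obtain ⟨m, hm, g, hg⟩ := few_subsets hδ hs
  -- the points of cofinality `ω`
  obtain ⟨A, hA⟩ : ∃ A, A = ZFSet.sep (fun a => CofN Ordinal.omega0.toZFSet a) l.toZFSet := ⟨_, rfl⟩
  have hAH : HOD A := by
    rw [hA]
    exact HOD_of_sub (OD_cof _ l) fun p hp => (HOD_ord l).mem (mem_sep.1 hp).1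
  have hAl : A ⊆ l.toZFSet := by rw [hA]; exact sep_subset
  have hAc : ∀ a ∈ A, CofN Ordinal.omega0.toZFSet a := fun a ha => by
    rw [hA] at ha; exact (mem_sep.1 ha).2
  obtain ⟨i, his, F, hF, C₀, hC₀, hcov⟩ := decomp hl (hs.trans hδl) ⟨m, hm.trans hδl, g, hg⟩
    (hno l hl) hAH hAl hAc
  -- suppose that the statement fails
  by_contra hcon
  have hN : StatL {α : Ordinal.{u} | IsCof μ α ∧ ¬ (MeasIn HOD α.toZFSet ∧ ClubMeas α)} l := by
    intro C hC1 hC2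
    by_contra hc
    push Not at hc
    refine hcon ⟨C, hC2, fun α hα hcof => ?_⟩
    by_contra hn
    exact hc α (tzm.1 (hC1 hα)) ⟨hcof, fun h1 h2 => hn ⟨h1, h2⟩⟩ hα
  -- limit points of the club
  obtain ⟨E, hE, hElim⟩ := club_lim hl hC₀
  have hN' := statL_club hl hN hE
  have hi : i < μ := his.trans hsμ
  obtain ⟨j, hj, hNj⟩ := StatL.union hl hN' (hi.trans (hμδ.trans hδl))
    (P := fun j α => Stat (F j ∩ α.toZFSet) α.toZFSet) (by
      rintro α ⟨⟨hcof, _⟩, hαE⟩ hαl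
      obtain ⟨_, h2⟩ := hElim _ hαE
      have hC' := club_inter_ord hC₀ (tzm.2 hαl) h2
      have hαlim : ∀ x < α, Order.succ x < α := by
        intro x hx
        obtain ⟨c, _, h4, h5⟩ := h2 _ (tzm.2 hx)
        obtain ⟨c, hc, rfl⟩ := Ordinal.mem_toZFSet_iff.1 h4
        exact (Order.succ_le_of_lt (tzm.1 h5)).trans_lt hc
      refine pick hμ hαlim hcof hC' hi fun β hβ hβc => ?_
      refine hcov _ (mem_inter.1 hβ).1 ?_
      rw [hA, mem_sep]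
      exact ⟨hC₀.1 (mem_inter.1 hβ).1, hβc⟩)
  obtain ⟨hAt, hFA⟩ := hF j hj
  -- the second decomposition
  obtain ⟨s', hs', hno'⟩ := hB μ hμδ
  obtain ⟨m', hm', g', hg'⟩ := few_subsets hδ hs'
  obtain ⟨T, hT⟩ : ∃ T, T = ZFSet.sep (fun α => CofN μ.toZFSet α ∧ StI (F j) α) l.toZFSet :=
    ⟨_, rfl⟩
  have hTH : HOD T := by
    rw [hT]
    exact HOD_sep4 (Ψ := fun v => CofN (v 5) (v 0) ∧ StI (v 2) (v 0))
      ((dfn_CofN _ _).and (dfn_StI _ _)) (HOD_ord l) hAt.1 HOD_empty HOD_empty μ 0 0 0 0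
  obtain ⟨i', _, G, hG, C₁, hC₁, hcov'⟩ := decomp hl (hs'.trans hδl) ⟨m', hm'.trans hδl, g', hg'⟩
    (hno' l hl) hTH (by rw [hT]; exact sep_subset) (fun a ha => by
      rw [hT] at ha; exact (mem_sep.1 ha).2.1)
  have hNj' := statL_club hl hNj hC₁
  obtain ⟨k, hk, hNk⟩ := StatL.union hl hNj' ((lt_trans ‹_› hs').trans hδl)
    (P := fun k α => α.toZFSet ∈ G k) (by
      rintro α ⟨⟨⟨⟨hcof, _⟩, _⟩, hst⟩, hαC⟩ hαl
      refine hcov' _ hαC ?_
      rw [hT, mem_sep]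
      exact ⟨tzm.2 hαl, hcof.1, stI_iff.2 hst⟩)
  obtain ⟨hGat, hGT⟩ := hG k hk
  obtain ⟨C₂, hC₂, hgood⟩ := ae_pair hl hAt hGat (fun a ha => hAc a (hFA ha)) (fun α hα => by
    have h1 := hGT hα
    rw [hT, mem_sep] at h1
    exact stI_iff.1 h1.2.2)
  obtain ⟨α, hα, ⟨h1, h2⟩, h3⟩ := statL_nonempty hl (statL_club hl hNk hC₂)
  exact h1.1.1.1.2 (hgood α h3 h2)

/-- A regular cardinal between `ρ` and `δ`. -/
theorem exists_reg_between (hδ : Extendible δ) {ρ : Ordinal.{u}} (hρ : ρ < δ) :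
    ∃ μ : Ordinal.{u}, RegUnc μ.toZFSet ∧ ρ < μ ∧ μ < δ := by
  obtain ⟨c, hc, h1, h2⟩ := hδ.limCard (max ρ Ordinal.omega0) (max_lt hρ hδ.om_lt)
  obtain ⟨c', hc', h1', h2'⟩ := hδ.limCard c hc
  obtain ⟨l, hl, hr, hs⟩ := exists_succ h2 ((le_max_right _ _).trans_lt h1)
  refine ⟨l, hr, ((le_max_left _ _).trans_lt h1).trans hl, ?_⟩
  by_contra hcon
  push Not at hcon
  -- `c' < l` would have cardinality at most `c`
  have h3 : c' < l := hc'.trans_le hcon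
  obtain ⟨_, _, hs3⟩ := hs
  obtain ⟨g, hg1, hg2⟩ := hs3 c'.toZFSet (tzm.2 h3) ⟨_, tzm.2 h1', rfl⟩
  obtain ⟨y, hy, h4⟩ := h2'.2 c.toZFSet (tzm.2 h1') g hg1
  obtain ⟨x, hx, h5⟩ := hg2 y hy
  exact h4 x hx h5

end Pool.Agent.H644
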