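import Pool.Agent.H644.App2
import Pool.Agent.H639.Tool8

/-!
Normal fine ultrafilters on `P_κ(λ)` from extendibility embeddings, and their traces on HOD.
-/

set_option autoImplicit false
set_option linter.unusedVariables false

namespace Pool.Agent.H644

open Pool.Agent.H310.HD Pool.Agent.H639 Gss969 ZFSet Pool.Agent.Results.MP_e37c09_lc.AlternativeA

universe u

/-- `P_κ(l)`: the set of the subsets of `l` with fewer than `κ` elements. -/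
noncomputable def Pk (κ l : Ordinal.{u}) : ZFSet.{u} :=
  ZFSet.sep (fun σ => ∃ c < κ, Few c σ) (powerset l.toZFSet)

/-- `U` is a proper filter on the set `X`, closed under intersections of fewer than `κ` elements. -/
structure Filt (κ : Ordinal.{u}) (X U : ZFSet.{u}) : Prop where
  sub : ∀ A ∈ U, A ⊆ X
  top : X ∈ U
  proper : ∅ ∉ U
  up : ∀ A ∈ U, ∀ B, A ⊆ B → B ⊆ X → B ∈ U
  comp : ∀ c < κ, ∀ F : Ordinal.{u} → ZFSet.{u}, (∀ i < c, F i ∈ U) →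
    ZFSet.sep (fun x => ∀ i < c, x ∈ F i) X ∈ U

/-- `U` is a `κ`-complete ultrafilter on the set `X`. -/
def Ultra (κ : Ordinal.{u}) (X U : ZFSet.{u}) : Prop :=
  Filt κ X U ∧ ∀ A, A ⊆ X → A ∈ U ∨ dif X A ∈ U

/-- The family `U` of subsets of `P_κ(l)` is fine. -/
def Fine (κ l : Ordinal.{u}) (U : ZFSet.{u}) : Prop :=
  ∀ a < l, ZFSet.sep (fun σ => a.toZFSet ∈ σ) (Pk κ l) ∈ U

/-- The filter `U` is normal: choice functions are constant on a set in `U`. -/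
def Normal (U : ZFSet.{u}) : Prop :=
  ∀ A ∈ U, ∀ f : ZFSet.{u} → ZFSet.{u}, (∀ σ ∈ A, f σ ∈ σ) →
    ∃ a, ZFSet.sep (fun σ => f σ = a) A ∈ U

theorem mem_Pk {κ l : Ordinal.{u}} {σ : ZFSet.{u}} :
    σ ∈ Pk κ l ↔ σ ⊆ l.toZFSet ∧ ∃ c < κ, Few c σ := by
  unfold Pk
  rw [mem_sep, mem_powerset]

/-- A small set of ordinals is an image of a function. -/
theorem exists_onto {c l : Ordinal.{u}} {σ : ZFSet.{u}} (hσ : σ ⊆ l.toZFSet) (h : Few c σ) :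
    ∃ c' ≤ c, ∃ e, IsFunc c'.toZFSet l.toZFSet e ∧ ∀ y ∈ σ, ∃ i ∈ c'.toZFSet, pair i y ∈ e := by
  classical
  by_cases h0 : ∃ y, y ∈ σ
  · obtain ⟨y0, hy0⟩ := h0
    obtain ⟨g, hg⟩ := h
    obtain ⟨y0, hy0', rfl⟩ := Ordinal.mem_toZFSet_iff.1 (hσ hy0)
    refine ⟨c, le_rfl, gr c.toZFSet fun i => if g (rank i) < l then (g (rank i)).toZFSet else
        y0.toZFSet, isFunc_gr fun i _ => ?_, fun y hy => ?_⟩
    · split_ifs with h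
      · exact tzm.2 h
      · exact tzm.2 hy0'
    · obtain ⟨y, hy', rfl⟩ := Ordinal.mem_toZFSet_iff.1 (hσ hy)
      obtain ⟨i, hi, hgi⟩ := hg y hy
      refine ⟨i.toZFSet, tzm.2 hi, pair_mem_gr.2 ⟨tzm.2 hi, ?_⟩⟩
      simp only [Ordinal.rank_toZFSet, hgi, if_pos hy']
  · refine ⟨0, bot_le, gz 0 fun _ => ∅, isFunc_gz fun i hi => absurd hi (not_lt.2 bot_le),
      fun y hy => absurd ⟨y, hy⟩ h0⟩

theorem few_of_onto {c : Ordinal.{u}} {l σ e : ZFSet.{u}}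
    (he : IsFunc c.toZFSet l e) (h : ∀ y ∈ σ, ∃ i ∈ c.toZFSet, pair i y ∈ e) : Few c σ := by
  refine ⟨fun i => rank (app e i.toZFSet), fun y hy => ?_⟩
  obtain ⟨i, hi, hiy⟩ := h _ hy
  obtain ⟨i, hi', rfl⟩ := Ordinal.mem_toZFSet_iff.1 hi
  refine ⟨i, hi', ?_⟩
  show rank (app e i.toZFSet) = y
  rw [(app_iff he hi).1 hiy, Ordinal.rank_toZFSet]

theorem Pk_iff {κ l : Ordinal.{u}} {σ : ZFSet.{u}} :
    σ ∈ Pk κ l ↔ σ ⊆ l.toZFSet ∧ ∃ c ∈ κ.toZFSet, ∃ e, IsFunc c l.toZFSet e ∧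
      ∀ y ∈ σ, ∃ i ∈ c, pair i y ∈ e := by
  rw [mem_Pk]
  refine and_congr_right fun hσ => ⟨?_, ?_⟩
  · rintro ⟨c, hc, h⟩
    obtain ⟨c', hc', e, he, h1⟩ := exists_onto hσ h
    exact ⟨c'.toZFSet, tzm.2 (hc'.trans_lt hc), e, he, h1⟩
  · rintro ⟨c, hc, e, he, h1⟩
    obtain ⟨c, hc', rfl⟩ := Ordinal.mem_toZFSet_iff.1 hc
    exact ⟨c, hc', few_of_onto he h1⟩

theorem OD_Pk (κ l : Ordinal.{u}) : OD (Pk κ l) := by
  refine OD_of (R := fun y x => (∀ σ ∈ y, σ ⊆ x 2 ∧ ∃ c ∈ x 3, ∃ e, IsFunc c (x 2) e ∧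
      ∀ y ∈ σ, ∃ i ∈ c, pair i y ∈ e) ∧ ∀ σ, σ ⊆ x 2 → (∃ c ∈ x 3, ∃ e, IsFunc c (x 2) e ∧
      ∀ y ∈ σ, ∃ i ∈ c, pair i y ∈ e) → σ ∈ y)
    (x := asg ∅ ∅ l.toZFSet κ.toZFSet ∅ ∅) ?_ HOD_empty.od HOD_empty.od
    (asg_ord (isOrdinal_toZFSet _) (isOrdinal_toZFSet _) empty_ord empty_ord) (fun w => ?_)
  · repeat' first
      | exact Dfn.mem _ _ | exact dfn_pm Lvl_sub_Trs _ _ _ | exact dfn_sub Lvl_sub_Trs _ _
      | refine Dfn.exfun _ _ ?_ | refine Dfn.allsub subset_rfl _ ?_ | refine Dfn.and ?_ ?_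
      | refine Dfn.imp ?_ ?_
      | refine Dfn.ball Lvl_sub_Trs _ ?_ | refine Dfn.bex Lvl_sub_Trs _ ?_
  · show ((∀ σ ∈ w, σ ⊆ l.toZFSet ∧ ∃ c ∈ κ.toZFSet, ∃ e, IsFunc c l.toZFSet e ∧
      ∀ y ∈ σ, ∃ i ∈ c, pair i y ∈ e) ∧ ∀ σ, σ ⊆ l.toZFSet → (∃ c ∈ κ.toZFSet, ∃ e,
      IsFunc c l.toZFSet e ∧ ∀ y ∈ σ, ∃ i ∈ c, pair i y ∈ e) → σ ∈ w) ↔ _
    constructor
    · rintro ⟨h1, h2⟩
      ext σ
      rw [Pk_iff]
      exact ⟨h1 σ, fun h => h2 σ h.1 h.2⟩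
    · rintro rfl
      exact ⟨fun σ hσ => Pk_iff.1 hσ, fun σ h1 h2 => Pk_iff.2 ⟨h1, h2⟩⟩

/-- The image `j[γ]`, `γ ≤ α`, is ordinal definable over a level below `ζ'`. -/
theorem setup_img' {δ ζ ζ' η θ τ α γ : Ordinal.{u}} {j : ZFSet.{u} → ZFSet.{u}}
    (G : Setup δ ζ ζ' η θ τ j α) (hγα : γ ≤ α) :
    ∃ T, (∀ ξ, ξ ∈ T ↔ ∃ i ∈ γ.toZFSet, j i = ξ) ∧ T ⊆ j γ.toZFSet ∧
      ∃ β < ζ', ODat (V_ β) T := by
  have D := G.D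
  have hαη := G.hαζ.trans G.hζη
  have hαV : α.toZFSet ∈ V_ η := ExtData.ordB hαη
  have hγη := hγα.trans_lt hαη
  have hγV : γ.toZFSet ∈ V_ η := ExtData.ordB hγη
  have hW : V_ ζ ∈ V_ η := vonNeumann_mem_vonNeumann_iff.2 G.hζη
  obtain ⟨g, hg⟩ : ∃ g : ZFSet.{u}, g = gr α.toZFSet (fun x => j x) := ⟨_, rfl⟩
  have hjγe : j γ.toZFSet = (rank (j γ.toZFSet)).toZFSet := D.jJ hγη
  have hgOD : ∃ β < ζ', ODat (V_ β) g := by rw [hg]; exact G.g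
  have hmemJ : ∀ {x : ZFSet.{u}}, x ∈ V_ ζ → j x ∈ V_ ζ' := by
    intro x hx
    rw [← G.jW]
    exact (D.E.mem_iff (D.E.bt.mem_trans hx hW) hW).1 hx
  have hjγ : rank (j γ.toZFSet) < ζ' :=
    mem_vonNeumann.1 (hmemJ (ExtData.ordB (hγα.trans_lt G.hαζ)))
  have hγζ' : γ < ζ' := (D.le_J hγη).trans_lt hjγ
  have hsub : ∀ i ∈ γ.toZFSet, i ∈ α.toZFSet := fun i hi => by
    obtain ⟨i, hi', rfl⟩ := Ordinal.mem_toZFSet_iff.1 hi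
    exact tzm.2 (hi'.trans_le hγα)
  obtain ⟨T, hT⟩ : ∃ T : ZFSet.{u}, T = ZFSet.sep (fun ξ => ∃ i ∈ γ.toZFSet, pair i ξ ∈ g)
    (j γ.toZFSet) := ⟨_, rfl⟩
  have hT' : ∀ ξ, ξ ∈ T ↔ ∃ i ∈ γ.toZFSet, j i = ξ := by
    intro ξ
    rw [hT, mem_sep]
    constructor
    · rintro ⟨_, i, hi, h⟩
      rw [hg, pair_mem_gr] at h
      exact ⟨i, hi, h.2⟩
    · rintro ⟨i, hi, rfl⟩
      refine ⟨(D.E.mem_iff (D.E.bt.mem_trans hi hγV) hγV).1 hi, i, hi, ?_⟩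
      rw [hg, pair_mem_gr]
      exact ⟨hsub i hi, rfl⟩
  have hTs : T ⊆ j γ.toZFSet := by rw [hT]; exact sep_subset
  refine ⟨T, hT', hTs, ?_⟩
  refine OD_of' (R := fun y x => (∀ ξ ∈ y, ξ ∈ x 2 ∧ ∃ i ∈ x 3, pair i ξ ∈ x 0) ∧
        ∀ ξ ∈ x 2, (∃ i ∈ x 3, pair i ξ ∈ x 0) → ξ ∈ y)
      (x := asg g g (rank (j γ.toZFSet)).toZFSet γ.toZFSet γ.toZFSet γ.toZFSet) ?_ G.ll' hgOD hgOD
      (asg_ord (isOrdinal_toZFSet _) (isOrdinal_toZFSet _) (isOrdinal_toZFSet _)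
        (isOrdinal_toZFSet _))
      (ρ := max (rank (j γ.toZFSet)) γ) (max_lt hjγ hγζ') ?_ ?_ fun y => ?_
  · refine Dfn.and ?_ ?_
    · exact Dfn.ball Lvl_sub_Trs _ ((Dfn.mem _ _).and (Dfn.bex Lvl_sub_Trs _
        (dfn_pm Lvl_sub_Trs _ _ _)))
    · exact Dfn.ball Lvl_sub_Trs _ ((Dfn.bex Lvl_sub_Trs _
        (dfn_pm Lvl_sub_Trs _ _ _)).imp (Dfn.mem _ _))
  · intro i
    rcases i with _ | i
    · show rank (rank (j γ.toZFSet)).toZFSet ≤ _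
      rw [Ordinal.rank_toZFSet]
      exact le_max_left _ _
    rcases i with _ | i
    · show rank γ.toZFSet ≤ _
      rw [Ordinal.rank_toZFSet]
      exact le_max_right _ _
    rcases i with _ | i
    · show rank γ.toZFSet ≤ _
      rw [Ordinal.rank_toZFSet]
      exact le_max_right _ _
    · show rank γ.toZFSet ≤ _
      rw [Ordinal.rank_toZFSet]
      exact le_max_right _ _
  · refine lt_of_le_of_lt (rank_mono hTs) hjγ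
  · rw [← hjγe]
    show ((∀ ξ ∈ y, ξ ∈ j γ.toZFSet ∧ ∃ i ∈ γ.toZFSet, pair i ξ ∈ g) ∧
      ∀ ξ ∈ j γ.toZFSet, (∃ i ∈ γ.toZFSet, pair i ξ ∈ g) → ξ ∈ y) ↔ _
    constructor
    · rintro ⟨h1, h2⟩
      ext ξ
      rw [hT, mem_sep]
      exact ⟨h1 ξ, fun h => h2 ξ h.1 h.2⟩
    · rintro rfl
      exact ⟨fun ξ hξ => by rw [hT, mem_sep] at hξ; exact hξ, fun ξ h1 h2 => by
        rw [hT, mem_sep]; exact ⟨h1, h2⟩⟩

end Pool.Agent.H644
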