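import Pool.Agent.H644.Ult1

/-!
The normal fine ultrafilter derived from an embedding.
-/

set_option autoImplicit false
set_option linter.unusedVariables false

namespace Pool.Agent.H644

open Pool.Agent.H310.HD Pool.Agent.H639 Gss969 ZFSet Pool.Agent.Results.MP_e37c09_lc.AlternativeA

universe u

variable {δ η θ τ l : Ordinal.{u}} {j : ZFSet.{u} → ZFSet.{u}} {s : ZFSet.{u}}

/-- The ultrafilter on `P_δ(l)` derived from `j` and `s = j[l]`. -/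
noncomputable def Der (δ l : Ordinal.{u}) (j : ZFSet.{u} → ZFSet.{u}) (s : ZFSet.{u}) : ZFSet.{u} :=
  ZFSet.sep (fun X => s ∈ j X) (powerset (Pk δ l))

theorem mem_Der {X : ZFSet.{u}} : X ∈ Der δ l j s ↔ X ⊆ Pk δ l ∧ s ∈ j X := by
  unfold Der
  rw [mem_sep, mem_powerset]

theorem Pk_mem (D : ExtData δ η θ τ j) (hl : l < η) : Pk δ l ∈ V_ η :=
  Lvl_sub D.E.lvl (Lvl_powerset D.E.lvl (ExtData.ordB hl)) sep_subset

theorem s_mem_jPk (D : ExtData δ η θ τ j) (hl : l < η)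
    (hs : ∀ ξ, ξ ∈ s ↔ ∃ i ∈ l.toZFSet, j i = ξ) : s ∈ j (Pk δ l) := by
  have hlV : l.toZFSet ∈ V_ η := ExtData.ordB hl
  have hP := Pk_mem D hl
  have h1 := (D.E.el.t3 D.E.lvl D.nl (A := fun d l P => ∀ σ, σ ⊆ l → (∃ c ∈ d, ∃ e, IsFunc c l e ∧
      ∀ y ∈ σ, ∃ i ∈ c, pair i y ∈ e) → σ ∈ P) (by
    repeat' first
      | exact Dfn.mem _ _ | exact dfn_pm Lvl_sub_Trs _ _ _ | exact dfn_sub Lvl_sub_Trs _ _
      | refine Dfn.exfun _ _ ?_ | refine Dfn.allsub subset_rfl _ ?_ | refine Dfn.and ?_ ?_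
      | refine Dfn.imp ?_ ?_
      | refine Dfn.ball Lvl_sub_Trs _ ?_ | refine Dfn.bex Lvl_sub_Trs _ ?_) D.dB hlV hP).1
    fun σ h1 h2 => Pk_iff.2 ⟨h1, h2⟩
  rw [D.jd] at h1
  have hmem : ∀ i ∈ l.toZFSet, j i ∈ j l.toZFSet := fun i hi =>
    (D.E.mem_iff (D.E.bt.mem_trans hi hlV) hlV).1 hi
  refine h1 s (fun ξ hξ => ?_) ⟨l.toZFSet, tz_mem.2 (hl.trans D.ητ), gr l.toZFSet fun x => j x,
    isFunc_gr hmem, fun y hy => ?_⟩
  · obtain ⟨i, hi, rfl⟩ := (hs ξ).1 hξ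
    exact hmem i hi
  · obtain ⟨i, hi, rfl⟩ := (hs y).1 hy
    exact ⟨i, hi, pair_mem_gr.2 ⟨hi, rfl⟩⟩

theorem ultra_Der (D : ExtData δ η θ τ j) (hl : l < η)
    (hs : ∀ ξ, ξ ∈ s ↔ ∃ i ∈ l.toZFSet, j i = ξ) : Ultra δ (Pk δ l) (Der δ l j s) := by
  have hlV : l.toZFSet ∈ V_ η := ExtData.ordB hl
  have hP := Pk_mem D hl
  have hsP := s_mem_jPk D hl hs
  have hsubV : ∀ {A : ZFSet.{u}}, A ⊆ Pk δ l → A ∈ V_ η := fun h => Lvl_sub D.E.lvl hP h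
  refine ⟨⟨fun A hA => (mem_Der.1 hA).1, mem_Der.2 ⟨fun _ h => h, hsP⟩, fun h => ?_,
    fun A hA B hAB hB => ?_, fun c hc F hF => ?_⟩, fun A hA => ?_⟩
  · have h0 : (∅ : ZFSet.{u}) ∈ V_ δ := mem_vonNeumann.2 (by
      rw [rank_empty]
      by_contra hc
      push Not at hc
      have h0 : δ = 0 := le_antisymm hc bot_le
      have h2 := D.jd
      rw [h0, Ordinal.toZFSet_zero] at h2
      have h3 := (mem_Der.1 h).2
      have h4 := (D.E.el.t1 D.E.lvl D.nl (A := fun a => ∀ x ∈ a, ¬ x = x) (by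
        repeat' first
          | exact Dfn.eq _ _ | refine Dfn.ball Lvl_sub_Trs _ ?_ | refine Dfn.not ?_)
          (hsubV (A := ∅) (fun x hx => absurd hx (notMem_empty x)))).1
        (fun x hx => absurd hx (notMem_empty x))
      exact h4 _ h3 rfl)
    have h1 := (mem_Der.1 h).2
    rw [D.fixV h0] at h1
    exact notMem_empty _ h1
  · obtain ⟨h1, h2⟩ := mem_Der.1 hA
    exact mem_Der.2 ⟨hB, (D.E.sub_iff (hsubV h1) (hsubV hB)).1 hAB h2⟩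
  · -- completeness
    obtain ⟨f, hf⟩ : ∃ f, f = gz c F := ⟨_, rfl⟩
    have hff : IsFunc c.toZFSet (powerset (Pk δ l)) f := by
      rw [hf]
      exact isFunc_gz fun i hi => mem_powerset.2 (mem_Der.1 (hF i hi)).1
    have hcη : c < η := hc.trans D.lt
    have hcV : c.toZFSet ∈ V_ η := ExtData.ordB hcη
    have hPPV : powerset (Pk δ l) ∈ V_ η := Lvl_powerset D.E.lvl hP
    have hfV : f ∈ V_ η := Lvl_func D.E.lvl hcV hPPV hff
    obtain ⟨I, hI⟩ : ∃ I, I = ZFSet.sep (fun x => ∀ i < c, x ∈ F i) (Pk δ l) := ⟨_, rfl⟩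
    have hIP : I ⊆ Pk δ l := by rw [hI]; exact sep_subset
    have h1 := (D.E.el.t4 D.E.lvl D.nl (A := fun c P f I => ∀ σ ∈ P, (∀ i ∈ c, InF f i σ) → σ ∈ I)
      (by
        repeat' first
          | exact Dfn.mem _ _ | exact dfn_InF _ _ _ | refine Dfn.imp ?_ ?_
          | refine Dfn.ball Lvl_sub_Trs _ ?_) hcV hP hfV (hsubV hIP)).1 (fun σ hσ h => by
        rw [hI, mem_sep]
        refine ⟨hσ, fun i hi => ?_⟩
        obtain ⟨X, hX, hσX⟩ := h _ (tzm.2 hi)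
        rw [hf, pair_gz] at hX
        rw [hX.2]
        exact hσX)
    rw [D.fix c hc] at h1
    rw [← hI]
    refine mem_Der.2 ⟨hIP, h1 s hsP fun i hi => ?_⟩
    obtain ⟨i, hi', rfl⟩ := Ordinal.mem_toZFSet_iff.1 hi
    have h2 := D.E.app_eq hcV hPPV hff hi
    have h3 := D.E.func hcV hPPV hff
    rw [D.fix c hc] at h3
    rw [D.fix i (hi'.trans hc)] at h2
    have h4 : app f i.toZFSet = F i := by
      refine (app_iff hff hi).1 ?_
      rw [hf, pair_gz]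
      exact ⟨hi', rfl⟩
    rw [h4] at h2
    refine ⟨j (F i), ?_, (mem_Der.1 (hF i hi')).2⟩
    exact (app_iff h3 hi).2 h2
  · -- ultra
    have hd : dif (Pk δ l) A ⊆ Pk δ l := fun x hx => (mem_dif.1 hx).1
    have h1 := (D.E.el.t3 D.E.lvl D.nl (A := fun P A B => ∀ σ ∈ P, σ ∈ A ∨ σ ∈ B) (by
      repeat' first
        | exact Dfn.mem _ _ | refine Dfn.or ?_ ?_ | refine Dfn.ball Lvl_sub_Trs _ ?_)
      hP (hsubV hA) (hsubV hd)).1 (fun σ hσ => by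
        by_cases h : σ ∈ A
        · exact Or.inl h
        · exact Or.inr (mem_dif.2 ⟨hσ, h⟩)) s hsP
    rcases h1 with h | h
    · exact Or.inl (mem_Der.2 ⟨hA, h⟩)
    · exact Or.inr (mem_Der.2 ⟨hd, h⟩)

theorem fine_Der (D : ExtData δ η θ τ j) (hl : l < η)
    (hs : ∀ ξ, ξ ∈ s ↔ ∃ i ∈ l.toZFSet, j i = ξ) : Fine δ l (Der δ l j s) := by
  intro a ha
  have hlV : l.toZFSet ∈ V_ η := ExtData.ordB hl
  have hP := Pk_mem D hl
  have hsP := s_mem_jPk D hl hs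
  refine mem_Der.2 ⟨sep_subset, ?_⟩
  have h1 := (D.E.el.t3 D.E.lvl D.nl (A := fun P a B => ∀ σ ∈ P, a ∈ σ → σ ∈ B) (by
      repeat' first
        | exact Dfn.mem _ _ | refine Dfn.imp ?_ ?_ | refine Dfn.ball Lvl_sub_Trs _ ?_)
      hP (ExtData.ordB (ha.trans hl)) (Lvl_sub D.E.lvl hP (sep_subset (p := fun σ => a.toZFSet ∈ σ)
        (x := Pk δ l)))).1 (fun σ hσ h => mem_sep.2 ⟨hσ, h⟩) s hsP
  exact h1 ((hs _).2 ⟨a.toZFSet, tzm.2 ha, rfl⟩)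

theorem normal_Der (D : ExtData δ η θ τ j) (hl : l < η)
    (hs : ∀ ξ, ξ ∈ s ↔ ∃ i ∈ l.toZFSet, j i = ξ) : Normal (Der δ l j s) := by
  intro A hA f hf
  obtain ⟨hAP, hsA⟩ := mem_Der.1 hA
  have hlV : l.toZFSet ∈ V_ η := ExtData.ordB hl
  have hP := Pk_mem D hl
  have hAV : A ∈ V_ η := Lvl_sub D.E.lvl hP hAP
  obtain ⟨h, hh⟩ : ∃ h, h = gr A f := ⟨_, rfl⟩
  have hhf : IsFunc A l.toZFSet h := by
    rw [hh]
    exact isFunc_gr fun σ hσ => (mem_Pk.1 (hAP hσ)).1 (hf σ hσ)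
  have hhV : h ∈ V_ η := Lvl_func D.E.lvl hAV hlV hhf
  have h1 := (D.E.el.t3 D.E.lvl D.nl (A := fun A l h => ∀ σ ∈ A, ∀ y ∈ l, pair σ y ∈ h → y ∈ σ) (by
      repeat' first
        | exact Dfn.mem _ _ | exact dfn_pm Lvl_sub_Trs _ _ _ | refine Dfn.imp ?_ ?_
        | refine Dfn.ball Lvl_sub_Trs _ ?_) hAV hlV hhV).1 (fun σ hσ y hy h2 => by
      rw [hh, pair_mem_gr] at h2
      rw [← h2.2]
      exact hf σ hσ)
  have h2 := D.E.func hAV hlV hhf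
  have h3 := app_spec h2 hsA
  have h4 := h1 s hsA _ (app_mem h2 hsA) h3
  obtain ⟨i, hi, h5⟩ := (hs _).1 h4
  rw [← h5] at h3
  have hiV : i ∈ V_ η := D.E.bt.mem_trans hi hlV
  refine ⟨i, mem_Der.2 ⟨fun x hx => hAP (mem_sep.1 hx).1, ?_⟩⟩
  have h6 := (D.E.el.t4 D.E.lvl D.nl (A := fun A h i B => ∀ σ ∈ A, pair σ i ∈ h → σ ∈ B) (by
      repeat' first
        | exact Dfn.mem _ _ | exact dfn_pm Lvl_sub_Trs _ _ _ | refine Dfn.imp ?_ ?_
        | refine Dfn.ball Lvl_sub_Trs _ ?_) hAV hhV hiV (Lvl_sub D.E.lvl hAV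
          (sep_subset (p := fun σ => f σ = i) (x := A)))).1 (fun σ hσ h7 => by
      rw [hh, pair_mem_gr] at h7
      exact mem_sep.2 ⟨hσ, h7.2⟩)
  exact h6 s hsA h3

end Pool.Agent.H644
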