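import Pool.Agent.H644.Ult2

/-!
The trace on HOD of the ultrafilters derived from embeddings, under the HOD Hypothesis.
-/

set_option autoImplicit false
set_option linter.unusedVariables false

namespace Pool.Agent.H644

open Pool.Agent.H310.HD Pool.Agent.H639 Gss969 ZFSet Pool.Agent.Results.MP_e37c09_lc.AlternativeA

universe u

/-- `U` is a normal fine `κ`-complete ultrafilter on `P_κ(l)` which concentrates on `M` and whose
restriction to `M` is in `M`. -/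
def Good (κ l : Ordinal.{u}) (M : ZFSet.{u} → Prop) (U : ZFSet.{u}) : Prop :=
  Ultra κ (Pk κ l) U ∧ Fine κ l U ∧ Normal U ∧ ZFSet.sep M (Pk κ l) ∈ U ∧ M (ZFSet.sep M U)

theorem exists_good {δ : Ordinal.{u}} (hδ : Extendible δ) (hFam : Families δ) (l : Ordinal.{u}) :
    ∃ U, Good δ l HOD U := by
  classical
  -- the subsets of `P_δ(l)` in HOD
  obtain ⟨ρ, hρ⟩ := exists_mem_vonNeumann (powerset (Pk δ l))
  obtain ⟨Q, hQ⟩ : ∃ Q : ZFSet.{u}, Q = ZFSet.sep HOD (V_ (max ρ 1)) := ⟨_, rfl⟩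
  have hQH : HOD Q := by rw [hQ]; exact HOD_sepHOD (OD_V _)
  have h0 : ∅ ∈ Q := by
    rw [hQ, mem_sep]
    refine ⟨mem_vonNeumann.2 ?_, HOD_empty⟩
    rw [rank_empty]
    exact lt_of_lt_of_le zero_lt_one (le_max_right _ _)
  have hsubQ : ∀ X, X ⊆ Pk δ l → HOD X → X ∈ Q := by
    intro X hX hXH
    rw [hQ, mem_sep]
    exact ⟨vonNeumann_subset_of_le (le_max_left _ _) ((isTransitive_vonNeumann ρ).mem_trans
      (mem_powerset.2 hX) hρ), hXH⟩
  obtain ⟨κ, E, hE, hEQ, hEs⟩ := exists_enum hQH h0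
  obtain ⟨e, he⟩ : ∃ e, e = gz κ E := ⟨_, rfl⟩
  rw [← he] at hE
  have hef : IsFunc κ.toZFSet Q e := by rw [he]; exact isFunc_gz fun i _ => hEQ i
  obtain ⟨β₀, hβ₀⟩ := hE.eventually
  obtain ⟨ζ, ζ', η, θ, τ, j, hζ, G⟩ := exists_setup hδ hFam (max l κ)
    (max β₀ (max (rank e) (rank Q)))
  have D := G.D
  have hlα : l ≤ max l κ := le_max_left _ _
  have hκα : κ ≤ max l κ := le_max_right _ _
  have hαη := G.hαζ.trans G.hζη
  have hlη := hlα.trans_lt hαη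
  have hκη := hκα.trans_lt hαη
  have hW : V_ ζ ∈ V_ η := vonNeumann_mem_vonNeumann_iff.2 G.hζη
  have hκV : κ.toZFSet ∈ V_ η := ExtData.ordB hκη
  have heζ : e ∈ V_ ζ := mem_vonNeumann.2
    (((le_max_left _ _).trans (le_max_right _ _)).trans_lt hζ)
  have hQζ : Q ∈ V_ ζ := mem_vonNeumann.2
    (((le_max_right _ _).trans (le_max_right _ _)).trans_lt hζ)
  have heV : e ∈ V_ η := D.E.bt.mem_trans heζ hW
  have hQV : Q ∈ V_ η := D.E.bt.mem_trans hQζ hW
  obtain ⟨s, hs, hss, β, hβ, hsβ⟩ := setup_img' G hlα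
  have hsP := s_mem_jPk D hlη hs
  have hjle : j l.toZFSet = (rank (j l.toZFSet)).toZFSet := D.jJ hlη
  have hsH : HOD s := HOD_of_sub ⟨β, hsβ⟩ fun z hz => by
    have := hss hz
    rw [hjle] at this
    exact (HOD_ord _).mem this
  have hP := Pk_mem D hlη
  refine ⟨Der δ l j s, ultra_Der D hlη hs, fine_Der D hlη hs, normal_Der D hlη hs, ?_, ?_⟩
  · -- concentration
    refine mem_Der.2 ⟨sep_subset, ?_⟩
    have h1 := (D.E.el.t3 D.E.lvl D.nl (A := fun W P B => ∀ σ ∈ P, (∃ U ∈ W, Lev U ∧ ODat U σ) →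
      σ ∈ B) (by
        repeat' first
          | exact Dfn.mem _ _ | exact dfn_lev _ | exact dfn_ODat _ _ | refine Dfn.imp ?_ ?_
          | refine Dfn.and ?_ ?_
          | refine Dfn.ball Lvl_sub_Trs _ ?_ | refine Dfn.bex Lvl_sub_Trs _ ?_)
        hW hP (Lvl_sub D.E.lvl hP (sep_subset (p := HOD) (x := Pk δ l)))).1 (fun σ hσ h => by
        obtain ⟨U, _, ⟨γ, rfl⟩, hU⟩ := h
        exact mem_sep.2 ⟨hσ, HOD_of_sub ⟨γ, hU⟩ fun z hz =>
          (HOD_ord l).mem ((mem_Pk.1 hσ).1 hz)⟩)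
    rw [G.jW] at h1
    exact h1 s hsP ⟨V_ β, vonNeumann_mem_vonNeumann_iff.2 hβ, ⟨β, rfl⟩, hsβ⟩
  · -- the restriction to HOD
    have hPH : HOD (ZFSet.sep HOD (Pk δ l)) := HOD_sepHOD (OD_Pk δ l)
    -- the image of the enumeration
    have hje : HOD (j e) := by
      have h1 := (D.E.el.t2 D.E.lvl D.nl (A := fun W e => HODin W e) (dfn_HODin 0 1) hW heV).1
        (hβ₀ ζ ((le_max_left _ _).trans hζ.le))
      exact h1.hod
    obtain ⟨g, hg⟩ : ∃ g : ZFSet.{u}, g = gr (max l κ).toZFSet (fun x => j x) := ⟨_, rfl⟩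
    have hgOD : OD g := by
      obtain ⟨β', _, h⟩ := G.g
      rw [hg]
      exact ⟨β', h⟩
    have hαV : (max l κ).toZFSet ∈ V_ η := ExtData.ordB hαη
    have hjαe : j (max l κ).toZFSet = (rank (j (max l κ).toZFSet)).toZFSet := D.jJ hαη
    have hgf : IsFunc (max l κ).toZFSet (rank (j (max l κ).toZFSet)).toZFSet g := by
      rw [hg, ← hjαe]
      exact isFunc_gr fun x hx => (D.E.mem_iff (D.E.bt.mem_trans hx hαV) hαV).1 hx
    have hgH : HOD g := hgOD.hod_func hgf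
    have hjκe : j κ.toZFSet = (rank (j κ.toZFSet)).toZFSet := D.jJ hκη
    have key := HOD_sep8 (Ψ := fun v => (∀ σ ∈ v 0, σ ∈ v 2) ∧ ∃ i ∈ v 9, pair i (v 0) ∈ v 3 ∧
        ∃ k ∈ v 10, pair i k ∈ v 4 ∧ InF (v 5) k (v 6)) (by
          repeat' first
            | exact Dfn.mem _ _ | exact dfn_pm Lvl_sub_Trs _ _ _ | exact dfn_InF _ _ _
            | refine Dfn.and ?_ ?_
            | refine Dfn.ball Lvl_sub_Trs _ ?_ | refine Dfn.bex Lvl_sub_Trs _ ?_)
      hQH hPH hE hgH hje hsH HOD_empty HOD_empty κ (rank (j κ.toZFSet)) 0 0 0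
    have hsub : ∀ i ∈ κ.toZFSet, i ∈ (max l κ).toZFSet := fun i hi => by
      obtain ⟨i, hi', rfl⟩ := Ordinal.mem_toZFSet_iff.1 hi
      exact tzm.2 (hi'.trans_le hκα)
    have hval : ∀ i ∈ κ.toZFSet, ∀ X, pair i X ∈ e → app (j e) (j i) = j X := by
      intro i hi X hX
      have h1 := D.E.app_eq hκV hQV hef hi
      rw [(app_iff hef hi).1 hX] at h1
      exact h1
    have hjef : IsFunc (j κ.toZFSet) (j Q) (j e) := D.E.func hκV hQV hef
    have hmemκ : ∀ i ∈ κ.toZFSet, j i ∈ j κ.toZFSet := fun i hi =>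
      (D.E.mem_iff (D.E.bt.mem_trans hi hκV) hκV).1 hi
    have e2 : ZFSet.sep HOD (Der δ l j s) = ZFSet.sep (fun X => (∀ σ ∈ X, σ ∈ ZFSet.sep HOD
        (Pk δ l)) ∧ ∃ i ∈ κ.toZFSet, pair i X ∈ e ∧ ∃ k ∈ (rank (j κ.toZFSet)).toZFSet,
          pair i k ∈ g ∧ InF (j e) k s) Q := by
      ext X
      rw [mem_sep, mem_sep, mem_Der]
      constructor
      · rintro ⟨⟨h1, h2⟩, h3⟩
        refine ⟨hsubQ X h1 h3, fun σ hσ => mem_sep.2 ⟨h1 hσ, h3.mem hσ⟩, ?_⟩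
        obtain ⟨i, hi, hEi⟩ := hEs X (hsubQ X h1 h3)
        have hi' : i.toZFSet ∈ κ.toZFSet := tzm.2 hi
        have hiX : pair i.toZFSet X ∈ e := by rw [he, pair_gz]; exact ⟨hi, hEi⟩
        refine ⟨i.toZFSet, hi', hiX, j i.toZFSet, ?_, ?_, j X, ?_, h2⟩
        · rw [← hjκe]
          exact hmemκ _ hi'
        · rw [hg, pair_mem_gr]
          exact ⟨hsub _ hi', rfl⟩
        · exact (app_iff hjef (hmemκ _ hi')).2 (hval _ hi' X hiX)
      · rintro ⟨h1, h2, i, hi, hiX, k, hk, hik, Y, hkY, hsY⟩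
        rw [hg, pair_mem_gr] at hik
        obtain ⟨_, rfl⟩ := hik
        have h3 := hval i hi X hiX
        have h4 := (app_iff hjef (hmemκ i hi)).1 hkY
        rw [h3] at h4
        rw [hQ, mem_sep] at h1
        refine ⟨⟨fun σ hσ => (mem_sep.1 (h2 σ hσ)).1, ?_⟩, h1.2⟩
        rw [h4]
        exact hsY
    rw [e2]
    exact key

end Pool.Agent.H644
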