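import Pool.Agent.H644.Ult3

/-!
Countably complete fine filters which concentrate on a subclass of `HOD_p`.
-/

set_option autoImplicit false
set_option linter.unusedVariables false

namespace Pool.Agent.H644

open Pool.Agent.H310.HD Pool.Agent.H639 Gss969 ZFSet Pool.Agent.Results.MP_e37c09_lc.AlternativeA

universe u

theorem Filt.mono {κ κ' : Ordinal.{u}} {X U : ZFSet.{u}} (h : Filt κ X U) (hκ : κ' ≤ κ) :
    Filt κ' X U :=
  ⟨h.sub, h.top, h.proper, h.up, fun c hc => h.comp c (hc.trans_le hκ)⟩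

/-- A countable subset of `l` is covered by an element of `M` of size less than `κ`. -/
theorem cover_of_filter {M : ZFSet.{u} → Prop} {κ l : Ordinal.{u}} {F : ZFSet.{u}}
    (hF : Filt (Order.succ Ordinal.omega0) (Pk κ l) F) (hfine : Fine κ l F)
    (hMF : ZFSet.sep M (Pk κ l) ∈ F) (f : ℕ → Ordinal.{u}) (hf : ∀ n, f n < l) :
    ∃ σ, M σ ∧ (∀ n, (f n).toZFSet ∈ σ) ∧ ∃ c < κ, Few c σ := by
  classical
  obtain ⟨G, hG⟩ : ∃ G : ℕ → ZFSet.{u}, G = fun n => Nat.casesOn n (ZFSet.sep M (Pk κ l))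
    fun n => ZFSet.sep (fun σ => (f n).toZFSet ∈ σ) (Pk κ l) := ⟨_, rfl⟩
  have hGF : ∀ n, G n ∈ F := by
    intro n
    rw [hG]
    cases n with
    | zero => exact hMF
    | succ n => exact hfine (f n) (hf n)
  have h1 := hF.comp Ordinal.omega0 (Order.lt_succ _)
    (fun i => if hi : ∃ n : ℕ, i = n then G hi.choose else Pk κ l) (fun i _ => by
      split_ifs with hi
      · exact hGF _
      · exact hF.top)
  have h2 : ∃ σ, σ ∈ ZFSet.sep (fun x => ∀ i < Ordinal.omega0.{u}, x ∈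
      (if hi : ∃ n : ℕ, i = n then G hi.choose else Pk κ l)) (Pk κ l) := by
    by_contra hc
    push Not at hc
    refine hF.proper ?_
    rwa [(ZFSet.eq_empty _).2 hc] at h1
  obtain ⟨σ, hσ⟩ := h2
  rw [mem_sep] at hσ
  obtain ⟨hσP, hσ⟩ := hσ
  have h3 : ∀ n, σ ∈ G n := by
    intro n
    have h4 := hσ n (Ordinal.natCast_lt_omega0 n)
    have h5 : ∃ m : ℕ, (n : Ordinal.{u}) = m := ⟨n, rfl⟩
    rw [dif_pos h5] at h4
    have h6 : h5.choose = n := by exact_mod_cast h5.choose_spec.symm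
    rwa [h6] at h4
  refine ⟨σ, ?_, fun n => ?_, (mem_Pk.1 hσP).2⟩
  · have := h3 0
    rw [hG] at this
    exact (mem_sep.1 this).2
  · have := h3 (n + 1)
    rw [hG] at this
    exact (mem_sep.1 this).2

theorem sing_of_filter {p : ZFSet.{u}} {M : ZFSet.{u} → Prop} {κ l γ : Ordinal.{u}} {F : ZFSet.{u}}
    (hM : ∀ x, M x → HODp p x)
    (hF : Filt (Order.succ Ordinal.omega0) (Pk κ l) F) (hfine : Fine κ l F)
    (hMF : ZFSet.sep M (Pk κ l) ∈ F) (hκ : IsCard κ.toZFSet) (hκγ : κ ≤ γ) (hγl : γ ≤ l)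
    (hc : CofOm γ.toZFSet) : CofinalP (HODp p) γ.toZFSet := by
  classical
  obtain ⟨f, hf, hfc⟩ := hc
  have hn : ∀ n : ℕ, (n : Ordinal.{u}).toZFSet ∈ om.{u} := fun n => by
    unfold om; exact tzm.2 (Ordinal.natCast_lt_omega0 n)
  have hfr : ∀ n : ℕ, (rank (app f (n : Ordinal.{u}).toZFSet)).toZFSet =
      app f (n : Ordinal.{u}).toZFSet := fun n => by
    obtain ⟨y, _, h1⟩ := Ordinal.mem_toZFSet_iff.1 (app_mem hf (hn n))
    rw [← h1, Ordinal.rank_toZFSet]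
  have hFγ : ∀ n : ℕ, rank (app f (n : Ordinal.{u}).toZFSet) < γ := fun n => by
    rw [← tzm, hfr]
    exact app_mem hf (hn n)
  obtain ⟨σ, hσM, hσf, c, hc, hfew⟩ := cover_of_filter hF hfine hMF
    (fun n => rank (app f (n : Ordinal.{u}).toZFSet)) fun n => (hFγ n).trans_le hγl
  refine sing_of_unb (hM σ hσM) hfew (fun x hx => ?_)
    ((hκ.card_lt hc).trans_le (Ordinal.card_le_card hκγ))
  obtain ⟨n, hn', y, hy, hny, hξy⟩ := hfc _ (tzm.2 hx)
  unfold om at hn'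
  obtain ⟨n, hn'', rfl⟩ := Ordinal.mem_toZFSet_iff.1 hn'
  obtain ⟨n, rfl⟩ := Ordinal.lt_omega0.1 hn''
  obtain ⟨y, hy', rfl⟩ := Ordinal.mem_toZFSet_iff.1 hy
  refine ⟨y, tzm.1 hξy, hy', ?_⟩
  have h2 := hσf n
  rwa [hfr, (app_iff hf (hn n)).1 hny] at h2

end Pool.Agent.H644
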